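import Pool.Agent.W_7d29a1_SR.Rec
import Pool.Agent.W_7d29a1_SR.SubH2
import Pool.Agent.W_7d29a1_SR.MaxM

/-!
STORM Z (superdiffusivity, MP_7d29a1_pr), input of leaf Z2: the lower tail of the point to point kernel for the displacements in the
cone `L ^ ε₁ wd n` (helper82). A displacement of time `m` is cut in `k` pieces of the length `m / k`: their slope is in the cone of
their scale, because the cone closes like a power.
-/

namespace Pool.Agent.W_7d29a1_Z82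

open MeasureTheory ProbabilityTheory Filter Topology
open Pool.Agent.W_7d29a1_F Pool.Agent.W_7d29a1_h4g Pool.Agent.W_7d29a1_G Pool.Agent.W_7d29a1_L
open Pool.Agent.W_7d29a1_SR

noncomputable section

variable {μ : Measure ℝ} [IsProbabilityMeasure μ] {c C : ℝ} {n₀ : ℕ}

/-- The law of the cost does not depend on the start. -/
theorem X_prob (a : Pt) (n : ℕ) (y : ℤ) (u : ℝ) :
    (law μ).real {η | u ≤ X μ 0 η a n y} = (law μ).real {η | u ≤ X μ 0 η 0 n y} := by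
  have hm : MeasurableSet {η : Env | u ≤ X μ 0 η 0 n y} := by
    refine measurableSet_le measurable_const ?_
    unfold X
    exact (measurable_W _ _ _).log.neg
  have h1 := real_sh (μ := μ) a hm
  rw [← h1]
  congr 1
  ext η
  rw [Set.mem_ofPred_eq, Set.mem_ofPred_eq, Set.mem_ofPred_eq, X_sh, zero_add]

omit [IsProbabilityMeasure μ] in
theorem X_add_le (η : Env) {m n : ℕ} {z y : ℤ} (h0 : 0 ≤ z) (h1 : z ≤ m) (h2 : 0 ≤ y) (h3 : y ≤ n) :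
    X μ 0 η 0 (m + n) (z + y) ≤ X μ 0 η 0 m z + X μ 0 η ((m : ℤ), z) n y := by
  have h4 := W_mul_le (μ := μ) (s := 0) η 0 m n z y
  have e1 : ((0 : Pt).1 + (m : ℤ), (0 : Pt).2 + z) = (((m : ℤ), z) : Pt) := by
    refine Prod.ext ?_ ?_
    · show (0 : ℤ) + m = m
      ring
    · show (0 : ℤ) + z = z
      ring
  rw [e1] at h4
  have h5 := W_pos (μ := μ) (s := 0) η 0 h0 h1
  have h6 := W_pos (μ := μ) (s := 0) η ((m : ℤ), z) h2 h3
  have h7 := Real.log_le_log (mul_pos h5 h6) h4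
  rw [Real.log_mul h5.ne' h6.ne'] at h7
  unfold X
  linarith

/-- A displacement cut in `k` pieces. -/
theorem chop {q : ℕ} {z : ℤ} (hz : 0 ≤ z) (hzq : z + 1 ≤ q) {u p : ℝ}
    (hp : ∀ d : ℕ, d = q ∨ d = q + 1 → ∀ x : ℤ, x = z ∨ x = z + 1 → (law μ).real {η | u ≤ X μ 0 η 0 d x} ≤ p) :
    ∀ k : ℕ, 1 ≤ k → ∀ (m : ℕ) (y : ℤ), k * q ≤ m → m ≤ k * (q + 1) → k * z ≤ y → y ≤ k * (z + 1) →
      (law μ).real {η | k * u ≤ X μ 0 η 0 m y} ≤ k * p := by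
  intro k hk
  induction k, hk using Nat.le_induction with
  | base =>
    intro m y h1 h2 h3 h4
    have h5 := hp m (by omega) y (by
      push_cast at h3 h4
      omega)
    simpa using h5
  | succ k hk ih =>
    intro m y h1 h2 h3 h4
    -- the first piece
    obtain ⟨d, hd, hd1, hd2, hd3⟩ : ∃ d : ℕ, (d = q ∨ d = q + 1) ∧ d ≤ m ∧ k * q ≤ m - d ∧ m - d ≤ k * (q + 1) := by
      have e1 : (k + 1) * q = k * q + q := by ring
      have e2 : (k + 1) * (q + 1) = k * (q + 1) + (q + 1) := by ring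
      rw [e1] at h1
      rw [e2] at h2
      by_cases hm : k * q + q < m
      · refine ⟨q + 1, Or.inr rfl, ?_, ?_, ?_⟩ <;> omega
      · refine ⟨q, Or.inl rfl, ?_, ?_, ?_⟩
        · omega
        · omega
        · have : k * q ≤ k * (q + 1) := Nat.mul_le_mul_left k (by omega)
          omega
    obtain ⟨x, hx, hx2, hx3⟩ : ∃ x : ℤ, (x = z ∨ x = z + 1) ∧ (k : ℤ) * z ≤ y - x ∧ y - x ≤ k * (z + 1) := by
      have e1 : ((k + 1 : ℕ) : ℤ) * z = k * z + z := by push_cast; ring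
      have e2 : ((k + 1 : ℕ) : ℤ) * (z + 1) = k * (z + 1) + (z + 1) := by push_cast; ring
      rw [e1] at h3
      rw [e2] at h4
      by_cases hy : (k : ℤ) * z + z < y
      · refine ⟨z + 1, Or.inr rfl, ?_, ?_⟩ <;> omega
      · refine ⟨z, Or.inl rfl, ?_, ?_⟩
        · omega
        · have : (k : ℤ) * z ≤ k * (z + 1) := mul_le_mul_of_nonneg_left (by omega) (by positivity)
          omega
    have hx0 : 0 ≤ x := by omega
    have hxd : x ≤ d := by omega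
    have hy0 : 0 ≤ y - x := le_trans (mul_nonneg (by positivity) hz) hx2
    have hyd : y - x ≤ ((m - d : ℕ) : ℤ) := by
      have h5 : (k : ℤ) * (z + 1) ≤ k * q := mul_le_mul_of_nonneg_left hzq (by positivity)
      have h6 : ((k * q : ℕ) : ℤ) ≤ ((m - d : ℕ) : ℤ) := by exact_mod_cast hd2
      push_cast at h6
      omega
    have hsub : {η : Env | ((k + 1 : ℕ) : ℝ) * u ≤ X μ 0 η 0 m y} ⊆
        {η | u ≤ X μ 0 η 0 d x} ∪ {η | k * u ≤ X μ 0 η ((d : ℤ), x) (m - d) (y - x)} := by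
      intro η hη
      rw [Set.mem_ofPred_eq] at hη
      by_contra hcon
      rw [Set.mem_union, not_or, Set.mem_ofPred_eq, Set.mem_ofPred_eq, not_le, not_le] at hcon
      have h5 := X_add_le (μ := μ) η (m := d) (n := m - d) hx0 hxd hy0 hyd
      have e1 : d + (m - d) = m := by omega
      have e2 : x + (y - x) = y := by ring
      rw [e1, e2] at h5
      push_cast at hη
      linarith [hcon.1, hcon.2]
    refine (measureReal_mono hsub (measure_ne_top _ _)).trans ((measureReal_union_le _ _).trans ?_)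
    have h5 := hp d hd x hx
    have h6 := ih (m - d) (y - x) hd2 hd3 hx2 hx3
    rw [← X_prob (μ := μ) ((d : ℤ), x)] at h6
    push_cast
    linarith

omit [IsProbabilityMeasure μ] in
/-- Comparison of stretched exponentials. -/
theorem sx {a g c₂ L : ℝ} (ha : 0 < a) (hg : 2 * c₂ ≤ g) (hL : 1 ≤ L) (hx1 : 1 ≤ L ^ c₂) (hx : 4 / a ≤ L ^ c₂) :
    Real.exp (-(a * L ^ g)) ≤ Real.exp (-(2 * L ^ c₂)) / 3 := by
  have hL0 : 0 < L := by linarith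
  have h1 : L ^ c₂ * L ^ c₂ ≤ L ^ g := by
    rw [← Real.rpow_add hL0]
    exact Real.rpow_le_rpow_of_exponent_le hL (by linarith)
  rw [div_le_iff₀ ha] at hx
  have h2 : 2 * L ^ c₂ + 2 ≤ a * L ^ g := by
    have h3 := mul_le_mul_of_nonneg_left h1 ha.le
    nlinarith
  have h4 : (3 : ℝ) ≤ Real.exp 2 := by
    have := Real.add_one_le_exp (2 : ℝ)
    linarith
  rw [le_div_iff₀ (by norm_num)]
  calc Real.exp (-(a * L ^ g)) * 3 ≤ Real.exp (-(a * L ^ g)) * Real.exp 2 :=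
        mul_le_mul_of_nonneg_left h4 (Real.exp_pos _).le
    _ = Real.exp (-(a * L ^ g) + 2) := (Real.exp_add _ _).symm
    _ ≤ Real.exp (-(2 * L ^ c₂)) := Real.exp_le_exp.2 (by linarith)

omit [IsProbabilityMeasure μ] in
/-- The cone at the scale of a piece. -/
theorem cone_piece {L ε₁ ε₂ a K : ℝ} {n d k : ℕ} (hL : 1 ≤ L) (hc0 : 0 < c) (hK : 0 < K) (ha : 0 < a)
    (h1a : ε₁ ≤ a * ε₂ / 2) (g1 : 128 * K * 2 ^ a / c ≤ L ^ (a * ε₂ / 2)) (hkr : (0 : ℝ) < k) (hkL : L ^ ε₂ ≤ k)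
    (hn0 : (0 : ℝ) < n) (hd0 : (0 : ℝ) < d) (hd4 : (n : ℝ) ≤ 4 * d * k) (hd5 : (d : ℝ) * k ≤ 2 * n)
    (h3 : 0 ≤ vA μ 1 d) (h1 : vA μ 1 n ≤ K * ((d : ℝ) / n) ^ a * vA μ 1 d) :
    L ^ ε₁ * wd μ n / k ≤ c / 32 * wd μ d := by
  have hL0 : 0 < L := lt_of_lt_of_le one_pos hL
  have h2 : ((d : ℝ) / n) ^ a ≤ 2 ^ a * L ^ (-(a * ε₂)) := by
    have h3 : (d : ℝ) / n ≤ 2 * L ^ (-ε₂) := by
      rw [div_le_iff₀ hn0, Real.rpow_neg hL0.le]
      have h4 : (d : ℝ) * L ^ ε₂ ≤ 2 * n := le_trans (mul_le_mul_of_nonneg_left hkL hd0.le) hd5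
      have h5 : 0 < L ^ ε₂ := Real.rpow_pos_of_pos hL0 _
      rw [mul_assoc, inv_mul_eq_div, ← mul_div_assoc, le_div_iff₀ h5]
      exact h4
    refine (Real.rpow_le_rpow (div_nonneg hd0.le hn0.le) h3 ha.le).trans (le_of_eq ?_)
    rw [Real.mul_rpow (by norm_num) (Real.rpow_nonneg hL0.le _), ← Real.rpow_mul hL0.le]
    congr 2
    ring
  have h4 : vA μ 1 n ≤ K * (2 ^ a * L ^ (-(a * ε₂))) * vA μ 1 d :=
    h1.trans (mul_le_mul_of_nonneg_right (mul_le_mul_of_nonneg_left h2 hK.le) h3)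
  have hn1 : 0 < L ^ ε₁ := Real.rpow_pos_of_pos hL0 _
  have hn2 : 0 < L ^ (-(a * ε₂)) := Real.rpow_pos_of_pos hL0 _
  have hn3 : (0 : ℝ) < 2 ^ a := Real.rpow_pos_of_pos (by norm_num) _
  have h5 : L ^ ε₁ * vA μ 1 n ≤ c / 128 * vA μ 1 d := by
    have h6 : L ^ ε₁ * (K * (2 ^ a * L ^ (-(a * ε₂)))) ≤ c / 128 := by
      have h7 : L ^ ε₁ ≤ L ^ (a * ε₂ / 2) := Real.rpow_le_rpow_of_exponent_le hL h1a
      have h8 : L ^ (a * ε₂ / 2) * L ^ (-(a * ε₂)) = (L ^ (a * ε₂ / 2))⁻¹ := by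
        rw [← Real.rpow_add hL0, ← Real.rpow_neg hL0.le]
        congr 1
        ring
      have h9 : 0 < L ^ (a * ε₂ / 2) := Real.rpow_pos_of_pos hL0 _
      calc L ^ ε₁ * (K * (2 ^ a * L ^ (-(a * ε₂)))) ≤ L ^ (a * ε₂ / 2) * (K * (2 ^ a * L ^ (-(a * ε₂)))) :=
            mul_le_mul_of_nonneg_right h7 (mul_nonneg hK.le (mul_nonneg hn3.le hn2.le))
        _ = K * 2 ^ a * (L ^ (a * ε₂ / 2) * L ^ (-(a * ε₂))) := by ring
        _ = K * 2 ^ a * (L ^ (a * ε₂ / 2))⁻¹ := by rw [h8]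
        _ ≤ c / 128 := by
          rw [← div_eq_mul_inv, div_le_iff₀ h9]
          rw [div_le_iff₀ hc0] at g1
          clear h8 h7 h4 h2 h1 hd4 hd5 hkL
          linarith
    calc L ^ ε₁ * vA μ 1 n ≤ L ^ ε₁ * (K * (2 ^ a * L ^ (-(a * ε₂))) * vA μ 1 d) :=
          mul_le_mul_of_nonneg_left h4 hn1.le
      _ = L ^ ε₁ * (K * (2 ^ a * L ^ (-(a * ε₂)))) * vA μ 1 d := by ring
      _ ≤ c / 128 * vA μ 1 d := mul_le_mul_of_nonneg_right h6 h3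
  unfold wd
  rw [div_le_iff₀ hkr]
  calc L ^ ε₁ * (vA μ 1 n * n) = L ^ ε₁ * vA μ 1 n * n := by ring
    _ ≤ c / 128 * vA μ 1 d * (4 * d * k) := mul_le_mul h5 hd4 hn0.le
      (mul_nonneg (div_nonneg hc0.le (by norm_num)) h3)
    _ = c / 32 * (vA μ 1 d * d) * k := by ring

/-- The length of a piece. -/
theorem piece_len {n m q k d N : ℕ} (hk4 : 4 ≤ k) (hq1 : k * q ≤ m) (hq2 : m ≤ k * (q + 1)) (hmn : m ≤ n) (hnm : n ≤ 2 * m)
    (hN : (16 * (N : ℝ) + 64) * k ≤ n) (hd : d = q ∨ d = q + 1) :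
    4 * N + 16 ≤ q ∧ d ≤ n ∧ (n : ℝ) ≤ 4 * d * k ∧ (d : ℝ) * k ≤ 2 * n := by
  have hN' : (16 * N + 64) * k ≤ n := by exact_mod_cast hN
  have h1 : (16 * N + 64) * k ≤ 2 * (q + 1) * k := by
    calc (16 * N + 64) * k ≤ n := hN'
      _ ≤ 2 * m := hnm
      _ ≤ 2 * (k * (q + 1)) := Nat.mul_le_mul_left 2 hq2
      _ = 2 * (q + 1) * k := by ring
  have h2 : 16 * N + 64 ≤ 2 * (q + 1) := Nat.le_of_mul_le_mul_right h1 (by omega)
  have h3 : 4 * N + 16 ≤ q := by omega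
  have h4 : 2 * q ≤ k * q := Nat.mul_le_mul_right q (by omega)
  have h5 : n ≤ 4 * q * k := by
    calc n ≤ 2 * m := hnm
      _ ≤ 2 * (k * (q + 1)) := Nat.mul_le_mul_left 2 hq2
      _ ≤ 2 * (k * (2 * q)) := Nat.mul_le_mul_left 2 (Nat.mul_le_mul_left k (by omega))
      _ = 4 * q * k := by ring
  have h6 : n ≤ 4 * d * k := h5.trans (Nat.mul_le_mul_right k (by omega))
  have h7 : d * k ≤ 2 * n := by
    calc d * k ≤ (2 * q) * k := Nat.mul_le_mul_right k (by omega)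
      _ = 2 * (k * q) := by ring
      _ ≤ 2 * n := Nat.mul_le_mul_left 2 (hq1.trans hmn)
  refine ⟨h3, by omega, by exact_mod_cast h6, by exact_mod_cast h7⟩

/-- A piece is in the cone of its scale. -/
theorem piece_off {y z x : ℤ} {m k q d : ℕ} {w R : ℝ} (hkr : (0 : ℝ) < k) (hq1r : (k : ℝ) * q ≤ m) (hq2r : (m : ℝ) ≤ k * (q + 1))
    (hz1r : (k : ℝ) * z ≤ y) (hz2r : (y : ℝ) ≤ k * (z + 1)) (hcone : |(y : ℝ) - m / 2| ≤ R) (hR : R / k ≤ c / 32 * w)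
    (h32 : 1 ≤ c / 32 * w) (hd : d = q ∨ d = q + 1) (hx : x = z ∨ x = z + 1) : |(x : ℝ) - d / 2| ≤ c / 16 * w + 1 := by
  have hdr : |(d : ℝ) - m / k| ≤ 1 := by
    have h1 : (q : ℝ) ≤ m / k := by rw [le_div_iff₀ hkr, mul_comm]; exact hq1r
    have h2 : (m : ℝ) / k ≤ q + 1 := by rw [div_le_iff₀ hkr, mul_comm]; exact hq2r
    clear hq1r hq2r hz1r hz2r hcone hR h32
    rcases hd with hd | hd
    · rw [hd, abs_le]
      constructor <;> linarith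
    · rw [hd, abs_le]
      push_cast
      constructor <;> linarith
  have hxr : |(x : ℝ) - y / k| ≤ 1 := by
    have h1 : (z : ℝ) ≤ y / k := by rw [le_div_iff₀ hkr, mul_comm]; exact hz1r
    have h2 : (y : ℝ) / k ≤ z + 1 := by rw [div_le_iff₀ hkr, mul_comm]; exact hz2r
    clear hq1r hq2r hz1r hz2r hcone hR h32 hdr
    rcases hx with hx | hx
    · rw [hx, abs_le]
      constructor <;> linarith
    · rw [hx, abs_le]
      push_cast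
      constructor <;> linarith
  have h1 : |(y : ℝ) / k - m / k / 2| ≤ c / 32 * w := by
    have h2 : (y : ℝ) / k - m / k / 2 = (y - m / 2) / k := by ring
    rw [h2, abs_div, abs_of_pos hkr]
    exact (div_le_div_of_nonneg_right hcone hkr.le).trans hR
  have e1 : (x : ℝ) - d / 2 = (x - y / k) + (y / k - m / k / 2) - (d - m / k) / 2 := by ring
  rw [e1]
  rw [abs_le] at h1 hdr hxr ⊢
  clear hq1r hq2r hz1r hz2r hcone hR
  constructor <;> linarith [h1.1, h1.2, hdr.1, hdr.2, hxr.1, hxr.2]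

/-- The sum over the pieces. -/
theorem piece_sum {A C' c' L ε₂ γ a₁ k : ℝ} (hL : 1 ≤ L) (hA : 0 < A) (hC' : 0 < C') (hc' : 0 < c') (ha : 0 < a₁)
    (hg : 2 * a₁ ≤ ε₂ * γ) (hε : ε₂ ≤ 1) (hk : k ≤ 2 * L ^ ε₂) (g4 : 2 * A * C' ≤ L) (g6 : 4 / c' ≤ L ^ a₁)
    (h1 : Real.exp (-(1 * L ^ a₁)) ≤ C' / L ^ (1 + 1)) :
    k * (A * Real.exp (-(c' * L ^ (ε₂ * γ)))) ≤ Real.exp (-L ^ a₁) := by
  have hL0 : 0 < L := lt_of_lt_of_le one_pos hL
  have h2 : L ^ ε₂ ≤ L := by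
    calc L ^ ε₂ ≤ L ^ (1 : ℝ) := Real.rpow_le_rpow_of_exponent_le hL hε
      _ = L := Real.rpow_one L
  have h3 : (1 : ℝ) ≤ L ^ a₁ := Real.one_le_rpow hL ha.le
  have h4 := sx (a := c') (g := ε₂ * γ) (c₂ := a₁) hc' hg hL h3 g6
  have h5 : 2 * A * L ≤ Real.exp (L ^ a₁) := by
    rw [one_mul, Real.exp_neg, le_div_iff₀ (pow_pos hL0 _), inv_mul_le_iff₀ (Real.exp_pos _)] at h1
    have h6 : 2 * A * L * C' ≤ Real.exp (L ^ a₁) * C' := by
      calc 2 * A * L * C' = 2 * A * C' * L := by ring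
        _ ≤ L * L := mul_le_mul_of_nonneg_right g4 hL0.le
        _ = L ^ (1 + 1) := by ring
        _ ≤ Real.exp (L ^ a₁) * C' := h1
    exact le_of_mul_le_mul_right h6 hC'
  have h7 : Real.exp (-(2 * L ^ a₁)) = Real.exp (-L ^ a₁) * Real.exp (-L ^ a₁) := by
    rw [← Real.exp_add]
    congr 1
    ring
  have h8 : Real.exp (L ^ a₁) * Real.exp (-L ^ a₁) = 1 := by
    rw [← Real.exp_add, add_neg_cancel, Real.exp_zero]
  have hp : 0 < Real.exp (-L ^ a₁) := Real.exp_pos _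
  calc k * (A * Real.exp (-(c' * L ^ (ε₂ * γ)))) ≤ (2 * L) * (A * (Real.exp (-(2 * L ^ a₁)) / 3)) :=
        mul_le_mul (hk.trans (mul_le_mul_of_nonneg_left h2 (by norm_num))) (mul_le_mul_of_nonneg_left h4 hA.le)
          (mul_nonneg hA.le (Real.exp_pos _).le) (mul_nonneg (by norm_num) hL0.le)
    _ = (2 * A * L) * (Real.exp (-(2 * L ^ a₁)) / 3) := by ring
    _ ≤ Real.exp (L ^ a₁) * (Real.exp (-(2 * L ^ a₁)) / 3) :=
        mul_le_mul_of_nonneg_right h5 (div_nonneg (Real.exp_pos _).le (by norm_num))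
    _ = (Real.exp (L ^ a₁) * Real.exp (-L ^ a₁)) * Real.exp (-L ^ a₁) / 3 := by rw [h7]; ring
    _ = Real.exp (-L ^ a₁) / 3 := by rw [h8, one_mul]
    _ ≤ Real.exp (-L ^ a₁) := by
      clear h8 h7 h5 h4 h3 h2 h1 g6 g4 hk hg
      linarith

/-- The algebra of the number of the pieces. -/
theorem piece_count {L ε ε₂ : ℝ} {k n : ℕ} (hL : 1 ≤ L) (hε : ε = 4 * ε₂) (hn : L ^ ε ≤ n) (hk : k = ⌈L ^ ε₂⌉₊) (g3 : 4 ≤ L ^ ε₂) :
    L ^ ε₂ ≤ k ∧ (k : ℝ) ≤ 2 * L ^ ε₂ ∧ 4 ≤ k ∧ (0 : ℝ) < n ∧ (k : ℝ) * L ^ ε₂ ≤ L ^ ε ∧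
    (∀ B : ℝ, 0 ≤ B → B ≤ L ^ (2 * ε₂) → B * k ≤ n) := by
  have hL0 : 0 < L := lt_of_lt_of_le one_pos hL
  have hkL : L ^ ε₂ ≤ k := by rw [hk]; exact Nat.le_ceil _
  have hp : 0 < L ^ ε₂ := Real.rpow_pos_of_pos hL0 _
  have hkU : (k : ℝ) ≤ 2 * L ^ ε₂ := by
    have h1 := Nat.ceil_lt_add_one hp.le
    rw [← hk] at h1
    linarith
  have hk4 : 4 ≤ k := by
    have : (4 : ℝ) ≤ k := g3.trans hkL
    exact_mod_cast this
  have hL2 : L ^ (2 * ε₂) = L ^ ε₂ * L ^ ε₂ := by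
    rw [← Real.rpow_add hL0]
    congr 1
    ring
  have hLε : L ^ ε = (L ^ ε₂ * L ^ ε₂) * (L ^ ε₂ * L ^ ε₂) := by
    rw [← hL2, ← Real.rpow_add hL0]
    congr 1
    rw [hε]
    ring
  have hkr : (0 : ℝ) ≤ k := Nat.cast_nonneg k
  have h2 : (L ^ ε₂ * L ^ ε₂) * (L ^ ε₂ * 2) ≤ L ^ ε := by
    rw [hLε]
    exact mul_le_mul_of_nonneg_left (mul_le_mul_of_nonneg_left (by linarith) hp.le) (mul_nonneg hp.le hp.le)
  refine ⟨hkL, hkU, hk4, lt_of_lt_of_le (Real.rpow_pos_of_pos hL0 _) hn, ?_, fun B hB0 hB => ?_⟩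
  · calc (k : ℝ) * L ^ ε₂ ≤ 2 * L ^ ε₂ * L ^ ε₂ := mul_le_mul_of_nonneg_right hkU hp.le
      _ = (L ^ ε₂ * 1) * (L ^ ε₂ * 2) := by ring
      _ ≤ (L ^ ε₂ * L ^ ε₂) * (L ^ ε₂ * 2) :=
        mul_le_mul_of_nonneg_right (mul_le_mul_of_nonneg_left (by linarith) hp.le) (mul_nonneg hp.le (by norm_num))
      _ ≤ L ^ ε := h2
  · calc B * k ≤ L ^ (2 * ε₂) * (2 * L ^ ε₂) := mul_le_mul hB hkU hkr (hB0.trans hB)
      _ = (L ^ ε₂ * L ^ ε₂) * (L ^ ε₂ * 2) := by rw [hL2]; ring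
      _ ≤ n := h2.trans hn

/-- The room of a piece and the probability of a piece. -/
theorem piece_prob (h : In μ c C n₀) {A c' γ u p : ℝ} {d : ℕ} (hd : 16 ≤ d) {x : ℤ} (hx0 : 0 ≤ x) (hv : vA μ 1 d ≤ 1 / 16)
    (hU : ∀ n : ℕ, 1 ≤ n → ∀ y : ℤ, 0 ≤ y → y ≤ n → |(y : ℝ) - n / 2| ≤ c / 16 * vA μ 1 n * n + 1 → ∀ u : ℝ, 0 ≤ u →
      (law μ).real {η | u * EE μ n ≤ X μ 0 η 0 n y} ≤ A * Real.exp (-(c' * u ^ γ)))
    (hoff : |(x : ℝ) - d / 2| ≤ c / 16 * wd μ d + 1) (hu : 0 ≤ u) (hp : A * Real.exp (-(c' * u ^ γ)) = p) :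
    x + 1 ≤ d ∧ (law μ).real {η | u * EE μ d ≤ X μ 0 η 0 d x} ≤ p := by
  have hc1 := h.c1
  have hc0 := h.c0
  have hdpos : (0 : ℝ) ≤ d := Nat.cast_nonneg d
  have hd16 : (16 : ℝ) ≤ d := by exact_mod_cast hd
  have hwle : c / 16 * wd μ d ≤ d / 256 := by
    unfold wd
    have h1 : vA μ 1 d * d ≤ 1 / 16 * d := mul_le_mul_of_nonneg_right hv hdpos
    have h2 : 0 ≤ vA μ 1 d * d := mul_nonneg (vA_nonneg (μ := μ) h.em zero_le_one d) hdpos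
    have h3 : c / 16 * (vA μ 1 d * d) ≤ 1 / 16 * (vA μ 1 d * d) := mul_le_mul_of_nonneg_right (by linarith) h2
    linarith
  have hxd : x + 1 ≤ d := by
    have h1 := (abs_le.1 hoff).2
    have : (x : ℝ) + 1 ≤ d := by linarith
    exact_mod_cast this
  refine ⟨hxd, ?_⟩
  rw [← hp]
  refine hU d (by omega) x hx0 (by omega) ?_ u hu
  have e2 : c / 16 * vA μ 1 d * d = c / 16 * wd μ d := by unfold wd; ring
  rw [e2]
  exact hoff

/-- **The lower tail of the point to point kernel in the wide cone.** -/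
theorem low_cone_exp (h : In μ c C n₀) (hF : HF2 μ) {ε : ℝ} (hε : 0 < ε) (hε1 : ε ≤ 1) : ∃ ε₁ a₁ : ℝ, 0 < ε₁ ∧ 0 < a₁ ∧
    ∃ L₀ : ℝ, 1 ≤ L₀ ∧ ∀ L : ℝ, L₀ ≤ L → ∀ n : ℕ, L ^ ε ≤ n → ∀ m : ℕ, n ≤ 2 * m → m ≤ n → ∀ y : ℤ, 0 ≤ y → y ≤ m →
    |(y : ℝ) - m / 2| ≤ L ^ ε₁ * wd μ n → (law μ).real {η | L ^ ε * EE μ n ≤ X μ 0 η 0 m y} ≤ Real.exp (-L ^ a₁) := by
  have hc0 := h.c0
  obtain ⟨A, c', γ, hA, hc', hγ, hγ1, hU⟩ := unlucky_exp h
  obtain ⟨K, a, n₁, hK, ha, hn1, hvA⟩ := vA_pow h hF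
  obtain ⟨n₂, hn₂⟩ := eventually_atTop.1 ((wd_tendsto h).eventually_ge_atTop (32 / c))
  obtain ⟨nh, hnh⟩ := eventually_atTop.1 (h.tv.eventually_le_const (show (0 : ℝ) < 1 / 16 by norm_num))
  -- the exponents
  obtain ⟨ε₂, hε₂⟩ : ∃ ε₂ : ℝ, ε₂ = ε / 4 := ⟨_, rfl⟩
  have hε₂0 : 0 < ε₂ := by rw [hε₂]; positivity
  obtain ⟨ε₁, hε₁⟩ : ∃ ε₁ : ℝ, ε₁ = min (a * ε₂ / 2) (ε₂ / 2) := ⟨_, rfl⟩
  obtain ⟨a₁, ha₁⟩ : ∃ a₁ : ℝ, a₁ = ε₂ * γ / 2 := ⟨_, rfl⟩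
  have ha₁0 : 0 < a₁ := by rw [ha₁]; positivity
  have hε₁a : ε₁ ≤ a * ε₂ / 2 := by rw [hε₁]; exact min_le_left _ _
  have hε₁0 : 0 < ε₁ := by rw [hε₁]; exact lt_min (by positivity) (by positivity)
  refine ⟨ε₁, a₁, hε₁0, ha₁0, ?_⟩
  obtain ⟨C', hC', hst⟩ := stretched_le (a := 1) (g := a₁) one_pos ha₁0 1
  -- the large constant
  have hev : ∀ (e : ℝ), 0 < e → ∀ B : ℝ, ∀ᶠ L : ℝ in atTop, B ≤ L ^ e := fun e he B =>
    (tendsto_rpow_atTop he).eventually_ge_atTop B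
  have hall := ((hev (a * ε₂ / 2) (by positivity) (128 * K * 2 ^ a / c)).and ((hev (2 * ε₂) (by positivity) (16 * ((n₁ + n₂ + nh : ℕ) : ℝ) + 64)).and
    ((hev ε₂ hε₂0 4).and ((eventually_ge_atTop (2 * A * C')).and ((eventually_ge_atTop (1 : ℝ)).and (hev a₁ ha₁0 (4 / c')))))))
  obtain ⟨L₀, hL₀⟩ := eventually_atTop.1 hall
  refine ⟨max L₀ 1, le_max_right _ _, fun L hL n hLn m hnm hmn y hy0 hym hcone => ?_⟩
  obtain ⟨g1, g2, g3, g4, g5, g6⟩ := hL₀ L ((le_max_left _ _).trans hL)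
  have hsum := piece_sum (ε₂ := ε₂) (γ := γ) (a₁ := a₁) (k := (⌈L ^ ε₂⌉₊ : ℝ)) g5 hA hC' hc' ha₁0
    (by rw [ha₁]; linarith) (by rw [hε₂]; linarith)
  have hh1 := hst L g5
  clear hall hL₀ hst hev
  -- the number of the pieces
  obtain ⟨k, hk⟩ : ∃ k : ℕ, k = ⌈L ^ ε₂⌉₊ := ⟨_, rfl⟩
  obtain ⟨hkL, hkU, hk4, hn0, hkε, hkB⟩ := piece_count g5 (show ε = 4 * ε₂ by rw [hε₂]; ring) hLn hk g3
  rw [← hk] at hsum
  have hsum' := hsum hkU g4 g6 hh1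
  clear hsum hh1
  have hL0 : 0 ≤ L ^ ε₂ := (le_trans (by norm_num) g3)
  have hk1 : 1 ≤ k := by omega
  have hkr : (0 : ℝ) < k := by exact_mod_cast hk1
  have hNn := hkB (16 * ((n₁ + n₂ + nh : ℕ) : ℝ) + 64) (by positivity) g2
  clear hkB g2 g4 g6
  -- the length of the pieces
  obtain ⟨q, hq⟩ : ∃ q : ℕ, q = m / k := ⟨_, rfl⟩
  have hq1 : k * q ≤ m := by rw [hq]; exact Nat.mul_div_le m k
  have hq2 : m ≤ k * (q + 1) := by
    have := Nat.lt_mul_div_succ m (show 0 < k by omega)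
    rw [hq]
    exact this.le
  have hq1r : (k : ℝ) * q ≤ m := by exact_mod_cast hq1
  have hq2r : (m : ℝ) ≤ k * (q + 1) := by exact_mod_cast hq2
  have hlen := fun d : ℕ => piece_len (d := d) hk4 hq1 hq2 hmn hnm hNn
  -- the displacement of the pieces
  obtain ⟨z, hz⟩ : ∃ z : ℤ, z = y / k := ⟨_, rfl⟩
  have hkz : (0 : ℤ) < k := by exact_mod_cast hk1
  have hz1 : (k : ℤ) * z ≤ y := by rw [hz]; exact Int.mul_ediv_self_le hkz.ne'
  have hz2 : y ≤ k * (z + 1) := by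
    have := Int.lt_mul_ediv_self_add (x := y) hkz
    rw [hz]
    calc y ≤ k * (y / k) + k := this.le
      _ = k * (y / k + 1) := by ring
  have hz1r : (k : ℝ) * z ≤ y := by exact_mod_cast hz1
  have hz2r : (y : ℝ) ≤ k * (z + 1) := by exact_mod_cast hz2
  have hz0 : 0 ≤ z := by rw [hz]; exact Int.ediv_nonneg hy0 hkz.le
  -- the pieces
  have hone : ∀ d : ℕ, d = q ∨ d = q + 1 → ∀ x : ℤ, x = z ∨ x = z + 1 →
      x + 1 ≤ d ∧ (law μ).real {η | L ^ ε₂ * EE μ n ≤ X μ 0 η 0 d x} ≤ A * Real.exp (-(c' * L ^ (ε₂ * γ))) := by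
    intro d hd x hx
    obtain ⟨l1, l2, l3, l4⟩ := hlen d hd
    have hv3 : 0 ≤ vA μ 1 d := vA_nonneg (μ := μ) h.em zero_le_one d
    have hd0 : (0 : ℝ) < d := by
      have : 0 < d := by omega
      exact_mod_cast this
    have hcone2 := cone_piece (μ := μ) g5 hc0 hK ha hε₁a g1 hkr hkL hn0 hd0 l3 l4 hv3 (hvA d n (by omega) l2)
    have hwdd : 32 / c ≤ wd μ d := hn₂ d (by omega)
    have h32 : 1 ≤ c / 32 * wd μ d := by
      rw [div_le_iff₀ hc0] at hwdd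
      calc (1 : ℝ) = 32 / 32 := by norm_num
        _ ≤ wd μ d * c / 32 := div_le_div_of_nonneg_right hwdd (by norm_num)
        _ = c / 32 * wd μ d := by ring
    have hoff := piece_off hkr hq1r hq2r hz1r hz2r hcone hcone2 h32 hd hx
    have hx0 : 0 ≤ x := by omega
    obtain ⟨r1, r2⟩ := piece_prob h (u := L ^ ε₂) (d := d) (by omega) hx0 (hnh d (by omega)) hU hoff hL0 rfl
    refine ⟨r1, ?_⟩
    rw [← Real.rpow_mul (le_trans zero_le_one g5)] at r2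
    refine le_trans (measureReal_mono (fun η hη => ?_) (measure_ne_top _ _)) r2
    rw [Set.mem_ofPred_eq] at hη ⊢
    exact (mul_le_mul_of_nonneg_left (EE_mono l2) hL0).trans hη
  have hzq : z + 1 ≤ q := (hone q (Or.inl rfl) z (Or.inl rfl)).1
  have hchop := chop (μ := μ) hz0 hzq (fun d hd x hx => (hone d hd x hx).2) k hk1 m y hq1 hq2 hz1 hz2
  have hk2 : (k : ℝ) * (L ^ ε₂ * EE μ n) ≤ L ^ ε * EE μ n := by
    rw [← mul_assoc]
    exact mul_le_mul_of_nonneg_right hkε (zero_le_one.trans (one_le_EE (μ := μ) n))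
  refine le_trans (measureReal_mono (fun η hη => ?_) (measure_ne_top _ _)) (hchop.trans hsum')
  rw [Set.mem_ofPred_eq] at hη ⊢
  exact hk2.trans hη

/-- The lower tail, power form. -/
theorem low_cone (h : In μ c C n₀) (hF : HF2 μ) {ε : ℝ} (hε : 0 < ε) (hε1 : ε ≤ 1) : ∃ ε₁ : ℝ, 0 < ε₁ ∧ ∀ Q : ℕ, ∃ L₀ : ℝ,
    1 ≤ L₀ ∧ ∀ L : ℝ, L₀ ≤ L → ∀ n : ℕ, L ^ ε ≤ n → ∀ m : ℕ, n ≤ 2 * m → m ≤ n → ∀ y : ℤ, 0 ≤ y → y ≤ m →
    |(y : ℝ) - m / 2| ≤ L ^ ε₁ * wd μ n → (law μ).real {η | L ^ ε * EE μ n ≤ X μ 0 η 0 m y} ≤ (L ^ Q)⁻¹ := by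
  obtain ⟨ε₁, a₁, hε₁, ha₁, L₀, hL₀, hall⟩ := low_cone_exp h hF hε hε1
  refine ⟨ε₁, hε₁, fun Q => ?_⟩
  obtain ⟨C', hC', hst⟩ := stretched_le (a := 1) (g := a₁) one_pos ha₁ Q
  refine ⟨max L₀ C', hL₀.trans (le_max_left _ _), fun L hL n hn m hm hm' y h0 h1 hy => ?_⟩
  have hL1 : 1 ≤ L := hL₀.trans ((le_max_left _ _).trans hL)
  have hL0 : 0 < L := by linarith
  refine (hall L ((le_max_left _ _).trans hL) n hn m hm hm' y h0 h1 hy).trans ?_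
  have h2 := hst L hL1
  rw [one_mul] at h2
  refine h2.trans ?_
  rw [pow_succ, div_le_iff₀ (by positivity)]
  have h3 : C' ≤ L := (le_max_right _ _).trans hL
  calc C' ≤ L := h3
    _ = (L ^ Q)⁻¹ * (L ^ Q * L) := by
      rw [← mul_assoc, inv_mul_cancel₀ (by positivity), one_mul]

end

end Pool.Agent.W_7d29a1_Z82
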