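import Pool.Agent.W_7d29a1_Z82.Pair
import Pool.Agent.W_7d29a1_Z82.LowCone
import Pool.Agent.W_7d29a1_SL.N2

/-!
STORM Z (superdiffusivity, MP_7d29a1_pr), leaf Z2, part (c): the fresh tube lemma with high probability (helper82).
-/

namespace Pool.Agent.W_7d29a1_Z82

open MeasureTheory ProbabilityTheory Filter Topology
open Pool.Agent.W_7d29a1_F Pool.Agent.W_7d29a1_h4g Pool.Agent.W_7d29a1_G Pool.Agent.W_7d29a1_L
open Pool.Agent.W_7d29a1_SL Pool.Agent.W_7d29a1_SR Pool.Agent.W_7d29a1_NR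

noncomputable section

variable {μ : Measure ℝ} [IsProbabilityMeasure μ] {c C : ℝ} {n₀ : ℕ}

open Classical in
/-- **The fresh tube lemma with high probability**: the second path does not stay in the tube of radius `L ^ (-ε) wd n` around the
first one for the time `n'` without touching it, except with a stretched exponentially small probability. -/
theorem fresh_exp (h : In μ c C n₀) (hF : HF2 μ) {ε : ℝ} (hε : 0 < ε) (hε1 : ε ≤ 1) : ∃ ε₁ c₂ : ℝ, 0 < ε₁ ∧ 0 < c₂ ∧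
    ∃ L₀ : ℝ, 1 ≤ L₀ ∧ ∀ L : ℝ, L₀ ≤ L → ∀ n : ℕ, L ^ ε ≤ n → ∃ n' : ℕ, n' ≤ n ∧ n ≤ 2 * n' ∧
    ∀ ρ : ℕ, (ρ : ℝ) ≤ L ^ (-ε) * wd μ n → ∀ (t k N : ℕ) (φ : ℤ → ℤ) (y y' : ℤ) (S : Finset (ℤ × ℤ)),
    (S.card : ℝ) ≤ Real.exp (L ^ c₂) → (∀ p ∈ S, 0 ≤ p.2 ∧ p.2 ≤ n' ∧ |(p.2 : ℝ) - n' / 2| ≤ L ^ ε₁ * wd μ n) →
    ∫ η, ∑ S₁ ∈ (Finset.range N).powerset, Gp μ η N y S₁ *
      ∑ S₂ ∈ (Finset.range (t + n' + k)).powerset, Gp μ (rsh φ η) (t + n' + k) y' S₂ *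
        (if close φ ρ t n' S S₁ S₂ then 1 else 0) ∂(law μ) ≤ Real.exp (-L ^ c₂) := by
  have hc0 := h.c0
  obtain ⟨κ, a, hκ, ha, J, n₁, hpair⟩ := pair h
  obtain ⟨C₁, c₁, n₃, hC₁, hc₁0, hc₁1, hSL⟩ := sl h
  obtain ⟨n₂, hn₂, hsub⟩ := EE_sub h hC₁ hc₁0 hc₁1 hSL
  obtain ⟨n₄, hlow⟩ := wd_lower h
  obtain ⟨n₅, hn₅⟩ := eventually_atTop.1 ((wd_tendsto h).eventually_ge_atTop (2 / c))
  obtain ⟨ε₃, hε₃⟩ : ∃ ε₃ : ℝ, ε₃ = c₁ * ε / 4 := ⟨_, rfl⟩
  have hε₃0 : 0 < ε₃ := by rw [hε₃]; positivity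
  have hε₃ε : ε₃ ≤ ε := by
    rw [hε₃]
    nlinarith
  obtain ⟨ε₁, a₁, hε₁, ha₁, Lc, hLc1, hLc⟩ := low_cone_exp h hF hε₃0 (hε₃ε.trans hε1)
  obtain ⟨c₂, hc₂⟩ : ∃ c₂ : ℝ, c₂ = min (min (ε / 4) (ε₃ / 2)) (a₁ / 2) := ⟨_, rfl⟩
  have hc₂0 : 0 < c₂ := by rw [hc₂]; positivity
  have hc₂a : 2 * c₂ ≤ ε / 2 := by
    have : c₂ ≤ ε / 4 := by rw [hc₂]; exact (min_le_left _ _).trans (min_le_left _ _)
    linarith
  have hc₂b : 2 * c₂ ≤ ε₃ := by
    have : c₂ ≤ ε₃ / 2 := by rw [hc₂]; exact (min_le_left _ _).trans (min_le_right _ _)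
    linarith
  have hc₂c : 2 * c₂ ≤ a₁ := by
    have : c₂ ≤ a₁ / 2 := by rw [hc₂]; exact min_le_right _ _
    linarith
  refine ⟨ε₁, c₂, hε₁, hc₂0, ?_⟩
  have hev : ∀ (e : ℝ), 0 < e → ∀ B : ℝ, ∀ᶠ L : ℝ in atTop, B ≤ L ^ e := fun e he B =>
    (tendsto_rpow_atTop he).eventually_ge_atTop B
  obtain ⟨N₀, hN₀⟩ : ∃ N₀ : ℕ, N₀ = n₁ + n₂ + n₄ + n₅ := ⟨_, rfl⟩
  have hall := ((hev (ε / 2) (by positivity) (2 ^ (J + 6) / c)).and ((hev (ε / 2) (by positivity)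
    (4 * (2 ^ (J + 1) * ((N₀ : ℕ) + 1) + 1))).and ((hev ε₃ hε₃0 (8 * C₁ / κ)).and
    ((eventually_ge_atTop Lc).and ((hev c₂ hc₂0 (4 / a)).and (hev c₂ hc₂0 4))))))
  obtain ⟨L₀, hL₀⟩ := eventually_atTop.1 hall
  refine ⟨max L₀ 1, le_max_right _ _, fun L hL n hLn => ?_⟩
  obtain ⟨g1, g2, g3, g4, g5, g6⟩ := hL₀ L ((le_max_left _ _).trans hL)
  have hL1 : 1 ≤ L := (le_max_right _ _).trans hL
  have hL0 : 0 < L := by linarith
  obtain ⟨b, hb⟩ : ∃ b : ℝ, b = L ^ (ε / 2) := ⟨_, rfl⟩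
  rw [← hb] at g1 g2
  have hb0 : 0 < b := by rw [hb]; positivity
  have hbb : b * b = L ^ ε := by
    rw [hb, ← Real.rpow_add hL0]
    congr 1
    ring
  have hb4 : 4 ≤ b := by
    have h1 : (1 : ℝ) ≤ 2 ^ (J + 1) * ((N₀ : ℕ) + 1) + 1 := by
      have : (0 : ℝ) ≤ 2 ^ (J + 1) * ((N₀ : ℕ) + 1) := by positivity
      linarith
    linarith
  -- the number of the blocks and their length
  obtain ⟨k₀, hk₀⟩ : ∃ k₀ : ℕ, k₀ = ⌈b⌉₊ := ⟨_, rfl⟩
  have hkb : b ≤ k₀ := by rw [hk₀]; exact Nat.le_ceil _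
  have hkU : (k₀ : ℝ) ≤ 2 * b := by
    have h1 := Nat.ceil_lt_add_one hb0.le
    rw [← hk₀] at h1
    linarith
  have hk0 : 0 < k₀ := by
    have : (0 : ℝ) < k₀ := by linarith
    exact_mod_cast this
  have hk0r : (0 : ℝ) < k₀ := by exact_mod_cast hk0
  obtain ⟨l, hl⟩ : ∃ l : ℕ, l = n / k₀ := ⟨_, rfl⟩
  have hl1 : k₀ * l ≤ n := by rw [hl]; exact Nat.mul_div_le n k₀
  have hl2 : n < k₀ * (l + 1) := by rw [hl]; exact Nat.lt_mul_div_succ n hk0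
  have hl1r : (k₀ : ℝ) * l ≤ n := by exact_mod_cast hl1
  have hl2r : (n : ℝ) ≤ k₀ * (l + 1) := by exact_mod_cast hl2.le
  have hbn : b * b ≤ n := by rw [hbb]; exact hLn
  have hn0 : (0 : ℝ) < n := lt_of_lt_of_le (by positivity) hbn
  have hlb : b ≤ 2 * (l + 1) := by
    have h1 : b * b ≤ 2 * b * (l + 1) := hbn.trans (hl2r.trans (mul_le_mul_of_nonneg_right hkU (by positivity)))
    have h2 : b * b ≤ b * (2 * (l + 1)) := by linarith
    exact le_of_mul_le_mul_left h2 hb0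
  have hlbig : (2 ^ (J + 1) * ((N₀ : ℕ) + 1) : ℝ) ≤ l := by
    have h1 : (0 : ℝ) ≤ 2 ^ (J + 1) * ((N₀ : ℕ) + 1) := by positivity
    linarith
  have hlN : 2 ^ (J + 1) * (N₀ + 1) ≤ l := by exact_mod_cast hlbig
  have hl0 : 0 < l := lt_of_lt_of_le (by positivity) hlN
  have hl0r : (0 : ℝ) < l := by exact_mod_cast hl0
  have hl1' : (1 : ℝ) ≤ l := by exact_mod_cast hl0
  obtain ⟨M, hM⟩ : ∃ M : ℕ, M = n / l := ⟨_, rfl⟩
  have hM1 : M * l ≤ n := by rw [hM]; exact Nat.div_mul_le_self n l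
  have hM2 : n < (M + 1) * l := by
    have := Nat.lt_mul_div_succ n hl0
    rw [hM, mul_comm]
    exact this
  have hkM : k₀ ≤ M := by
    rw [hM, Nat.le_div_iff_mul_le hl0]
    exact hl1
  have hM0 : 1 ≤ M := le_trans hk0 hkM
  have hMr : b ≤ M := hkb.trans (by exact_mod_cast hkM)
  have hM2r : (n : ℝ) ≤ 2 * (M * l) := by
    have h1 : (n : ℝ) ≤ (M + 1) * l := by exact_mod_cast hM2.le
    have h2 : (1 : ℝ) ≤ M := by exact_mod_cast hM0
    nlinarith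
  have hln : l ≤ n := le_trans (Nat.le_mul_of_pos_left l hk0) hl1
  refine ⟨M * l, hM1, ?_, fun ρ hρ t k N φ y y' S hS hSp => ?_⟩
  · have : (n : ℝ) ≤ ((2 * (M * l) : ℕ) : ℝ) := by
      push_cast
      exact hM2r
    exact_mod_cast this
  -- the scale `r`
  obtain ⟨r, hr⟩ : ∃ r : ℕ, r = l / 2 ^ J := ⟨_, rfl⟩
  have hp : 0 < 2 ^ J := by positivity
  have hrl : 2 ^ J * r ≤ l := by rw [hr]; exact Nat.mul_div_le l _
  have hrN : 2 * (N₀ + 1) ≤ r := by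
    rw [hr, Nat.le_div_iff_mul_le hp]
    calc 2 * (N₀ + 1) * 2 ^ J = 2 ^ (J + 1) * (N₀ + 1) := by ring
      _ ≤ l := hlN
  have hlr : l ≤ 2 ^ (J + 1) * r := by
    have h1 : l < 2 ^ J * (r + 1) := by rw [hr]; exact Nat.lt_mul_div_succ l hp
    have h2 : 2 ^ J * (r + 1) ≤ 2 ^ J * (2 * r) := Nat.mul_le_mul_left _ (by omega)
    have e1 : 2 ^ J * (2 * r) = 2 ^ (J + 1) * r := by ring
    omega
  have hlrr : (l : ℝ) ≤ 2 ^ (J + 1) * r := by exact_mod_cast hlr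
  have hr0 : (0 : ℝ) < r := by
    have : 0 < r := by omega
    exact_mod_cast this
  have hrn : r ≤ n := le_trans (by
    have : 1 * r ≤ 2 ^ J * r := Nat.mul_le_mul_right r hp
    omega) (hrl.trans hln)
  have hwn0 : 0 ≤ wd μ n := mul_nonneg (vA_nonneg (μ := μ) h.em zero_le_one n) (Nat.cast_nonneg n)
  have hρ2 : ((2 * ρ + 1 : ℕ) : ℝ) ≤ c * wd μ r := by
    have h1 := hlow r n (by omega) hrn
    have h2 : 2 / c ≤ wd μ r := hn₅ r (by omega)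
    have h3 : 1 ≤ c / 2 * wd μ r := by
      rw [div_le_iff₀ hc0] at h2
      linarith
    -- `n ≤ 2 ^ (J + 3) b r`
    have h4 : (n : ℝ) ≤ 2 ^ (J + 3) * b * r := by
      calc (n : ℝ) ≤ k₀ * (l + 1) := hl2r
        _ ≤ 2 * b * (2 * l) := mul_le_mul hkU (by linarith) (by positivity) (by positivity)
        _ ≤ 2 * b * (2 * (2 ^ (J + 1) * r)) := by
          refine mul_le_mul_of_nonneg_left ?_ (by positivity)
          linarith
        _ = 2 ^ (J + 3) * b * r := by ring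
    have h5 : wd μ n ≤ 2 ^ (J + 4) * b * wd μ r := by
      have h6 : r * wd μ n ≤ r * (2 ^ (J + 4) * b * wd μ r) := by
        have h7 : 0 ≤ wd μ r := by
          have : 0 < 2 / c := by positivity
          linarith
        calc r * wd μ n ≤ 2 * (n * wd μ r) := h1
          _ ≤ 2 * (2 ^ (J + 3) * b * r * wd μ r) := by
            refine mul_le_mul_of_nonneg_left (mul_le_mul_of_nonneg_right h4 h7) (by norm_num)
          _ = r * (2 ^ (J + 4) * b * wd μ r) := by ring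
      exact le_of_mul_le_mul_left h6 hr0
    have h6 : L ^ (-ε) * wd μ n ≤ c / 4 * wd μ r := by
      have h7 : 0 ≤ wd μ r := by
        have : 0 < 2 / c := by positivity
        linarith
      have h8 : L ^ (-ε) * b = b⁻¹ := by
        rw [Real.rpow_neg hL0.le, ← hbb]
        field_simp
      calc L ^ (-ε) * wd μ n ≤ L ^ (-ε) * (2 ^ (J + 4) * b * wd μ r) := mul_le_mul_of_nonneg_left h5 (by positivity)
        _ = 2 ^ (J + 4) * (L ^ (-ε) * b) * wd μ r := by ring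
        _ = 2 ^ (J + 4) * b⁻¹ * wd μ r := by rw [h8]
        _ ≤ c / 4 * wd μ r := by
          refine mul_le_mul_of_nonneg_right ?_ h7
          rw [← div_eq_mul_inv, div_le_iff₀ hb0]
          rw [div_le_iff₀ hc0] at g1
          have e1 : (2 : ℝ) ^ (J + 6) = 4 * 2 ^ (J + 4) := by ring
          rw [e1] at g1
          linarith
    push_cast
    linarith
  -- the gain
  obtain ⟨K, hK⟩ : ∃ K : ℝ, K = κ * (M * EE μ l) := ⟨_, rfl⟩
  have hEl : 0 < EE μ l := by linarith [one_le_EE (μ := μ) l]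
  have hEn : 1 ≤ EE μ n := one_le_EE n
  have hgain : L ^ ε₃ * EE μ n ≤ K / 2 := by
    have h1 := hsub l n (by
      have h2 : N₀ + 1 ≤ 2 ^ (J + 1) * (N₀ + 1) := Nat.le_mul_of_pos_left _ (by positivity)
      omega) hln
    have hx : 0 < (n : ℝ) / l := by positivity
    have h2 : b ≤ n / l := by
      rw [le_div_iff₀ hl0r]
      exact (mul_le_mul_of_nonneg_right hkb hl0r.le).trans hl1r
    have h3 : (b : ℝ) ^ c₁ ≤ ((n : ℝ) / l) ^ c₁ := Real.rpow_le_rpow hb0.le h2 hc₁0.le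
    have h4 : b ^ c₁ = L ^ ε₃ * L ^ ε₃ := by
      rw [hb, ← Real.rpow_mul hL0.le, ← Real.rpow_add hL0]
      congr 1
      rw [hε₃]
      ring
    have h5 : ((n : ℝ) / l) ^ (1 - c₁) * ((n : ℝ) / l) ^ c₁ = (n : ℝ) / l := by
      rw [← Real.rpow_add hx]
      rw [show 1 - c₁ + c₁ = 1 by ring, Real.rpow_one]
    have h6 : EE μ n * ((n : ℝ) / l) ^ c₁ ≤ 2 * C₁ * ((n : ℝ) / l) * EE μ l := by
      have h7 := mul_le_mul_of_nonneg_right h1 (show 0 ≤ ((n : ℝ) / l) ^ c₁ by positivity)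
      calc EE μ n * ((n : ℝ) / l) ^ c₁ ≤ 2 * C₁ * ((n : ℝ) / l) ^ (1 - c₁) * EE μ l * ((n : ℝ) / l) ^ c₁ := h7
        _ = 2 * C₁ * (((n : ℝ) / l) ^ (1 - c₁) * ((n : ℝ) / l) ^ c₁) * EE μ l := by ring
        _ = _ := by rw [h5]
    have h7 : (n : ℝ) / l ≤ 2 * M := by
      rw [div_le_iff₀ hl0r]
      linarith
    have h8 : EE μ n * (L ^ ε₃ * L ^ ε₃) ≤ 4 * C₁ * (M * EE μ l) := by
      calc EE μ n * (L ^ ε₃ * L ^ ε₃) ≤ EE μ n * ((n : ℝ) / l) ^ c₁ := by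
            rw [← h4]
            exact mul_le_mul_of_nonneg_left h3 (by linarith)
        _ ≤ 2 * C₁ * ((n : ℝ) / l) * EE μ l := h6
        _ ≤ 2 * C₁ * (2 * M) * EE μ l := by
          refine mul_le_mul_of_nonneg_right (mul_le_mul_of_nonneg_left h7 (by positivity)) hEl.le
        _ = 4 * C₁ * (M * EE μ l) := by ring
    have h9 : 8 * C₁ * (L ^ ε₃ * EE μ n) ≤ κ * L ^ ε₃ * (L ^ ε₃ * EE μ n) := by
      rw [div_le_iff₀ hκ] at g3
      have h10 : 0 ≤ L ^ ε₃ * EE μ n := by positivity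
      have := mul_le_mul_of_nonneg_right g3 h10
      linarith
    have h10 : κ * L ^ ε₃ * (L ^ ε₃ * EE μ n) ≤ 4 * C₁ * K := by
      rw [hK]
      have := mul_le_mul_of_nonneg_left h8 hκ.le
      linarith
    have h11 : 4 * C₁ * (L ^ ε₃ * EE μ n) ≤ 4 * C₁ * (K / 2) := by linarith
    exact le_of_mul_le_mul_left h11 (by positivity)
  -- the conclusion
  have hmain := hpair r l ρ (by omega) hrl hρ2 M t k N φ y y' S
  rw [← hK] at hmain
  refine hmain.trans ?_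
  -- the kernels
  have hker : (law μ).real {η | ∃ q ∈ S, W μ 0 η ((t : ℤ), q.1) (M * l) q.2 < Real.exp (-(K / 2))} ≤
      S.card * Real.exp (-L ^ a₁) := by
    have h1 : {η | ∃ q ∈ S, W μ 0 η ((t : ℤ), q.1) (M * l) q.2 < Real.exp (-(K / 2))} ⊆
        ⋃ q ∈ S, {η | L ^ ε₃ * EE μ n ≤ X μ 0 η ((t : ℤ), q.1) (M * l) q.2} := by
      rintro η ⟨q, hq, hη⟩
      refine Set.mem_biUnion hq ?_
      obtain ⟨h2, h3, -⟩ := hSp q hq
      have h4 : 0 < W μ 0 η ((t : ℤ), q.1) (M * l) q.2 := W_pos _ _ h2 h3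
      rw [Set.mem_ofPred_eq]
      unfold X
      have h5 := Real.log_lt_log h4 hη
      rw [Real.log_exp] at h5
      linarith
    refine (measureReal_mono h1 (measure_ne_top _ _)).trans ((measureReal_biUnion_finset_le _ _).trans ?_)
    have h2 : ∀ q ∈ S, (law μ).real {η | L ^ ε₃ * EE μ n ≤ X μ 0 η ((t : ℤ), q.1) (M * l) q.2} ≤ Real.exp (-L ^ a₁) := by
      intro q hq
      obtain ⟨h2, h3, h4⟩ := hSp q hq
      rw [X_prob]
      refine hLc L g4 n ?_ (M * l) ?_ hM1 q.2 h2 h3 h4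
      · exact le_trans (Real.rpow_le_rpow_of_exponent_le hL1 hε₃ε) hLn
      · have : (n : ℝ) ≤ ((2 * (M * l) : ℕ) : ℝ) := by
          push_cast
          exact hM2r
        exact_mod_cast this
    refine (Finset.sum_le_sum h2).trans ?_
    rw [Finset.sum_const, nsmul_eq_mul]
  have hx1 : (1 : ℝ) ≤ L ^ c₂ := Real.one_le_rpow hL1 hc₂0.le
  have hea : Real.exp (-(a * M)) ≤ Real.exp (-(2 * L ^ c₂)) / 3 := by
    refine le_trans (Real.exp_le_exp.2 ?_) (sx (a := a) (g := ε / 2) (c₂ := c₂) ha hc₂a hL1 hx1 g5)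
    rw [← hb]
    have := mul_le_mul_of_nonneg_left hMr ha.le
    linarith
  have heb : Real.exp (-(K / 2)) ≤ Real.exp (-(2 * L ^ c₂)) / 3 := by
    refine le_trans (Real.exp_le_exp.2 ?_) (sx (a := 1) (g := ε₃) (c₂ := c₂) one_pos hc₂b hL1 hx1 (by linarith))
    have h2 : L ^ ε₃ * 1 ≤ L ^ ε₃ * EE μ n := mul_le_mul_of_nonneg_left hEn (by positivity)
    linarith
  have hec : Real.exp (-L ^ a₁) ≤ Real.exp (-(2 * L ^ c₂)) / 3 := by
    have h1 := sx (a := 1) (g := a₁) (c₂ := c₂) one_pos hc₂c hL1 hx1 (by linarith)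
    rwa [one_mul] at h1
  have hScard : (0 : ℝ) ≤ S.card := Nat.cast_nonneg _
  calc S.card * (Real.exp (-(a * M)) + Real.exp (-(K / 2))) + (law μ).real {η | ∃ q ∈ S,
        W μ 0 η ((t : ℤ), q.1) (M * l) q.2 < Real.exp (-(K / 2))}
      ≤ S.card * (Real.exp (-(2 * L ^ c₂)) / 3 + Real.exp (-(2 * L ^ c₂)) / 3) + S.card * (Real.exp (-(2 * L ^ c₂)) / 3) :=
        add_le_add (mul_le_mul_of_nonneg_left (add_le_add hea heb) hScard)
          (hker.trans (mul_le_mul_of_nonneg_left hec hScard))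
    _ = S.card * Real.exp (-(2 * L ^ c₂)) := by ring
    _ ≤ Real.exp (L ^ c₂) * Real.exp (-(2 * L ^ c₂)) := mul_le_mul_of_nonneg_right hS (Real.exp_pos _).le
    _ = Real.exp (-L ^ c₂) := by
      rw [← Real.exp_add]
      congr 1
      ring

end

end Pool.Agent.W_7d29a1_Z82
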