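import Pool.Agent.W_7d29a1_Z82.Tube

/-!
STORM Z (superdiffusivity, MP_7d29a1_pr), leaf Z2: the fresh tube lemma with kernels (helper82). `S` is sampled from weights `wt s`
which are decreasing in the environment off the shape `f s`; the second path lives in the environment with shifted rows; given
`s` its weight of the paths which stay in the tube of radius `ρ` around `f s` during the rows `(t, t + M l]` and do not touch it,
relative to the full kernel between the same end points, is small, unless the full kernel is small.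
-/

namespace Pool.Agent.W_7d29a1_Z82

open MeasureTheory ProbabilityTheory Filter Topology
open Pool.Agent.W_7d29a1_F Pool.Agent.W_7d29a1_h4g Pool.Agent.W_7d29a1_G Pool.Agent.W_7d29a1_L
open Pool.Agent.W_7d29a1_SL Pool.Agent.W_7d29a1_SR Pool.Agent.W_7d29a1_NR
open Pool.Agent.W_7d29a1_h48 (WR_mono_env)

noncomputable section

variable {μ : Measure ℝ}

/-- The sites of the rows `t..t+n` seen by the paths of `Q` in the shifted environment, off the shape `f`. -/
def Dq (Q : Finset (ℤ × ℤ)) (φ f : ℤ → ℤ) (t : ℤ) (n : ℕ) : Finset Pt :=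
  ((Q.biUnion fun q => Finset.Icc t (t + n) ×ˢ Finset.Icc q.1 (q.1 + n)).image
    fun p => (p.1, p.2 - φ p.1)).filter fun p => p.2 ≠ f p.1

theorem WR_dep_Dq {Q : Finset (ℤ × ℤ)} {φ f : ℤ → ℤ} {ρ : ℕ} {t : ℤ} {n : ℕ} {q : ℤ × ℤ} (hq : q ∈ Q) {η η' : Env}
    (h : ∀ p ∈ Dq Q φ f t n, η p = η' p) :
    WR μ 0 (Rt φ f ρ) (rsh φ η) (t, q.1) n q.2 = WR μ 0 (Rt φ f ρ) (rsh φ η') (t, q.1) n q.2 := by
  refine WR_dep (μ := μ) (s := 0) (Rt φ f ρ) (t, q.1) n q.2 fun p hp => ?_
  obtain ⟨⟨h1, h2, h3, h4, -, -⟩, -, h6⟩ := hp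
  simp only at h1 h2 h3 h4
  show η (p.1, p.2 - φ p.1) = η' (p.1, p.2 - φ p.1)
  refine h _ ?_
  unfold Dq
  rw [Finset.mem_filter, Finset.mem_image]
  refine ⟨⟨p, ?_, rfl⟩, h6⟩
  rw [Finset.mem_biUnion]
  refine ⟨q, hq, ?_⟩
  rw [Finset.mem_product, Finset.mem_Icc, Finset.mem_Icc]
  omega

/-- The row shift preserves the law. -/
theorem mp_rsh [IsProbabilityMeasure μ] (φ : ℤ → ℤ) : MeasurePreserving (rsh φ) (law μ) (law μ) := by
  refine mp_reindex (μ := μ) (fun p : Pt => ((p.1, p.2 - φ p.1) : Pt)) ?_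
  rintro ⟨i, y⟩ ⟨j, z⟩ h
  simp only [Prod.mk.injEq] at h
  obtain ⟨h1, h2⟩ := h
  subst h1
  exact Prod.ext rfl (by simpa using h2)

variable [IsProbabilityMeasure μ] {c C : ℝ} {n₀ : ℕ}

/-- **The fresh tube lemma** (kernels). -/
theorem core (h : In μ c C n₀) : ∃ κ a : ℝ, 0 < κ ∧ 0 < a ∧ ∃ J n₁ : ℕ, ∀ r l ρ : ℕ, n₁ ≤ r → 2 ^ J * r ≤ l →
    ((2 * ρ + 1 : ℕ) : ℝ) ≤ c * wd μ r → ∀ (M : ℕ) (t : ℤ) (φ : ℤ → ℤ) {σ : Type} (S : Finset σ) (f : σ → ℤ → ℤ)
    (wt : σ → Env → ℝ) (Q : Finset (ℤ × ℤ)),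
    (∀ s ∈ S, Measurable (wt s)) → (∀ s ∈ S, ∀ η, 0 ≤ wt s η) → (∀ η, ∑ s ∈ S, wt s η ≤ 1) →
    (∀ s ∈ S, ∀ η η' : Env, (∀ p, η p ≤ η' p) → (∀ i, η (i, f s i) = η' (i, f s i)) → wt s η' ≤ wt s η) →
    ∫ η, ∑ s ∈ S, wt s η * min 1 (∑ q ∈ Q.filter (fun q => |q.1 - φ t - f s t| ≤ ρ),
      WR μ 0 (Rt φ (f s) ρ) (rsh φ η) (t, q.1) (M * l) q.2 / W μ 0 (rsh φ η) (t, q.1) (M * l) q.2) ∂(law μ) ≤
    Q.card * (Real.exp (-(a * M)) + Real.exp (-(κ * (M * EE μ l) / 2))) +
      (law μ).real {η | ∃ q ∈ Q, W μ 0 η (t, q.1) (M * l) q.2 < Real.exp (-(κ * (M * EE μ l) / 2))} := by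
  classical
  obtain ⟨κ, a, hκ, ha, J, n₁, ht⟩ := tube_prob h
  refine ⟨κ, a, hκ, ha, J, n₁, fun r l ρ hr hrl hw M t φ σ S f wt Q hwm hw0 hw1 hwd => ?_⟩
  obtain ⟨K, hK⟩ : ∃ K : ℝ, K = κ * (M * EE μ l) := ⟨_, rfl⟩
  rw [← hK]
  -- the events
  obtain ⟨G, hG⟩ : ∃ G : σ → Set Env, G = fun s => {η | ∃ q ∈ Q.filter (fun q => |q.1 - φ t - f s t| ≤ ρ),
    Real.exp (-K) ≤ WR μ 0 (Rt φ (f s) ρ) (rsh φ η) (t, q.1) (M * l) q.2} := ⟨_, rfl⟩
  obtain ⟨B, hB⟩ : ∃ B : Set Env, B = {η | ∃ q ∈ Q, W μ 0 η (t, q.1) (M * l) q.2 < Real.exp (-(K / 2))} := ⟨_, rfl⟩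
  rw [← hB]
  have hBm : MeasurableSet B := by
    have h1 : B = ⋃ q ∈ Q, {η | W μ 0 η (t, q.1) (M * l) q.2 < Real.exp (-(K / 2))} := by
      rw [hB]
      ext η
      simp
    rw [h1]
    exact Finset.measurableSet_biUnion Q fun q _ => measurableSet_lt (measurable_W _ _ _) measurable_const
  have hGm : ∀ s ∈ S, MeasurableSet (G s) := fun s _ => by
    have h1 : G s = ⋃ q ∈ Q.filter (fun q => |q.1 - φ t - f s t| ≤ ρ),
        {η | Real.exp (-K) ≤ WR μ 0 (Rt φ (f s) ρ) (rsh φ η) (t, q.1) (M * l) q.2} := by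
      rw [hG]
      ext η
      simp
    rw [h1]
    exact Finset.measurableSet_biUnion _ fun q _ =>
      measurableSet_le measurable_const ((measurable_WR _ _ _ _).comp (measurable_rsh φ))
  have hGp : ∀ s ∈ S, (law μ).real (G s) ≤ Q.card * Real.exp (-(a * M)) := fun s _ => by
    have h1 : G s ⊆ ⋃ q ∈ Q.filter (fun q => |q.1 - φ t - f s t| ≤ ρ),
        {η | Real.exp (-K) ≤ WR μ 0 (Rt φ (f s) ρ) (rsh φ η) (t, q.1) (M * l) q.2} := by
      rw [hG]
      intro η hη
      obtain ⟨q, hq, hη⟩ := hη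
      exact Set.mem_biUnion hq hη
    refine (measureReal_mono h1 (measure_ne_top _ _)).trans ?_
    refine (measureReal_biUnion_finset_le _ _).trans ?_
    have h2 : ∀ q ∈ Q.filter (fun q => |q.1 - φ t - f s t| ≤ ρ), (law μ).real
        {η | Real.exp (-K) ≤ WR μ 0 (Rt φ (f s) ρ) (rsh φ η) (t, q.1) (M * l) q.2} ≤ Real.exp (-(a * M)) := by
      intro q hq
      rw [Finset.mem_filter] at hq
      have h3 := ht r l (2 * ρ + 1) hr hrl (by omega) hw M t (fun j => f s (t + j * l) + φ (t + j * l) - ρ)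
        (Rt φ (f s) ρ) q.1 q.2 (by
          rw [Finset.mem_Ico]
          have h4 := abs_le.1 hq.2
          have e1 : t + ((0 : ℕ) : ℤ) * l = t := by
            rw [Nat.cast_zero, zero_mul, add_zero]
          rw [e1]
          push_cast
          omega) (fun j _ _ u hu => by
          have h4 := abs_le.1 hu.1
          simp only at h4
          rw [Finset.mem_Ico]
          push_cast
          omega)
      have h4 := (mp_rsh (μ := μ) φ).measureReal_preimage
        (s := {η | Real.exp (-K) ≤ WR μ 0 (Rt φ (f s) ρ) η (t, q.1) (M * l) q.2})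
        (measurableSet_le measurable_const (measurable_WR _ _ _ _)).nullMeasurableSet
      rw [← hK] at h3
      rw [← h4] at h3
      exact h3
    refine (Finset.sum_le_sum h2).trans ?_
    rw [Finset.sum_const, nsmul_eq_mul]
    exact mul_le_mul_of_nonneg_right (by exact_mod_cast Finset.card_filter_le _ _) (Real.exp_pos _).le
  have hdom := dom (μ := μ) S (w := wt) (G := G) (D := fun s => Dq Q φ (f s) t (M * l)) hwm hw0 hw1
    (fun s hs η η' h1 h2 => hwd s hs η η' h1 fun i => h2 _ fun hm => (Finset.mem_filter.1 hm).2 rfl) hGm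
    (fun s hs η η' h1 _ hη => by
      rw [hG] at hη ⊢
      obtain ⟨q, hq, hη⟩ := hη
      exact ⟨q, hq, hη.trans (WR_mono_env _ (fun p => h1 _) _ _ _)⟩)
    (fun s hs η η' h1 => by
      rw [hG]
      constructor
      · rintro ⟨q, hq, hη⟩
        exact ⟨q, hq, by rwa [← WR_dep_Dq (Finset.mem_filter.1 hq).1 h1]⟩
      · rintro ⟨q, hq, hη⟩
        exact ⟨q, hq, by rwa [WR_dep_Dq (Finset.mem_filter.1 hq).1 h1]⟩) hGp (by positivity)
  -- the pointwise bound
  obtain ⟨F, hF⟩ : ∃ F : σ → Env → ℝ, F = fun s η => ∑ q ∈ Q.filter (fun q => |q.1 - φ t - f s t| ≤ ρ),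
    WR μ 0 (Rt φ (f s) ρ) (rsh φ η) (t, q.1) (M * l) q.2 / W μ 0 (rsh φ η) (t, q.1) (M * l) q.2 := ⟨_, rfl⟩
  have hFe : ∀ s η, ∑ q ∈ Q.filter (fun q => |q.1 - φ t - f s t| ≤ ρ),
    WR μ 0 (Rt φ (f s) ρ) (rsh φ η) (t, q.1) (M * l) q.2 / W μ 0 (rsh φ η) (t, q.1) (M * l) q.2 = F s η := fun s η => by
    rw [hF]
  simp only [hFe]
  have hF0 : ∀ s η, 0 ≤ F s η := fun s η => by
    rw [hF]
    exact Finset.sum_nonneg fun q _ => div_nonneg (WR_nonneg _ _ _ _ _) (W_nonneg _ _ _ _)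
  have hFm : ∀ s, Measurable (F s) := fun s => by
    rw [hF]
    exact Finset.measurable_sum _ fun q _ => ((measurable_WR _ _ _ _).comp (measurable_rsh φ)).div
      ((measurable_W _ _ _).comp (measurable_rsh φ))
  have hpt : ∀ η, ∑ s ∈ S, wt s η * min 1 (F s η) ≤ (∑ s ∈ S, wt s η * (G s).indicator (fun _ => (1 : ℝ)) η) +
      Q.card * Real.exp (-(K / 2)) + (rsh φ ⁻¹' B).indicator (fun _ => (1 : ℝ)) η := by
    intro η
    have h0 : 0 ≤ (Q.card : ℝ) * Real.exp (-(K / 2)) := by positivity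
    have h1 : 0 ≤ ∑ s ∈ S, wt s η * (G s).indicator (fun _ => (1 : ℝ)) η :=
      Finset.sum_nonneg fun s hs => mul_nonneg (hw0 s hs η) (Set.indicator_nonneg (fun _ _ => by norm_num) _)
    by_cases hηB : η ∈ rsh φ ⁻¹' B
    · rw [Set.indicator_of_mem hηB]
      have h2 : ∑ s ∈ S, wt s η * min 1 (F s η) ≤ ∑ s ∈ S, wt s η * 1 :=
        Finset.sum_le_sum fun s hs => mul_le_mul_of_nonneg_left (min_le_left _ _) (hw0 s hs η)
      simp only [mul_one] at h2
      have := hw1 η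
      linarith
    · rw [Set.indicator_of_notMem hηB, add_zero]
      have h2 : ∀ s ∈ S, wt s η * min 1 (F s η) ≤
          wt s η * (G s).indicator (fun _ => (1 : ℝ)) η + wt s η * (Q.card * Real.exp (-(K / 2))) := by
        intro s hs
        rw [← mul_add]
        refine mul_le_mul_of_nonneg_left ?_ (hw0 s hs η)
        by_cases hηG : η ∈ G s
        · rw [Set.indicator_of_mem hηG]
          exact (min_le_left _ _).trans (by linarith)
        · rw [Set.indicator_of_notMem hηG, zero_add]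
          refine (min_le_right _ _).trans ?_
          rw [← hFe]
          have h3 : ∀ q ∈ Q.filter (fun q => |q.1 - φ t - f s t| ≤ ρ),
              WR μ 0 (Rt φ (f s) ρ) (rsh φ η) (t, q.1) (M * l) q.2 / W μ 0 (rsh φ η) (t, q.1) (M * l) q.2 ≤
              Real.exp (-(K / 2)) := by
            intro q hq
            have h4 : WR μ 0 (Rt φ (f s) ρ) (rsh φ η) (t, q.1) (M * l) q.2 < Real.exp (-K) := by
              by_contra h5
              refine hηG ?_
              rw [hG]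
              exact ⟨q, hq, not_lt.1 h5⟩
            have h5 : Real.exp (-(K / 2)) ≤ W μ 0 (rsh φ η) (t, q.1) (M * l) q.2 := by
              by_contra h6
              refine hηB ?_
              rw [hB]
              exact ⟨q, (Finset.mem_filter.1 hq).1, not_le.1 h6⟩
            have h6 : 0 < W μ 0 (rsh φ η) (t, q.1) (M * l) q.2 := lt_of_lt_of_le (Real.exp_pos _) h5
            rw [div_le_iff₀ h6]
            have h7 : Real.exp (-K) = Real.exp (-(K / 2)) * Real.exp (-(K / 2)) := by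
              rw [← Real.exp_add]
              congr 1
              ring
            rw [h7] at h4
            exact h4.le.trans (mul_le_mul_of_nonneg_left h5 (Real.exp_pos _).le)
          refine (Finset.sum_le_sum h3).trans ?_
          rw [Finset.sum_const, nsmul_eq_mul]
          exact mul_le_mul_of_nonneg_right (by exact_mod_cast Finset.card_filter_le _ _) (Real.exp_pos _).le
      refine (Finset.sum_le_sum h2).trans ?_
      rw [Finset.sum_add_distrib, ← Finset.sum_mul]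
      have h3 := mul_le_mul_of_nonneg_right (hw1 η) h0
      linarith
  -- integrability
  have ib : ∀ {g : Env → ℝ}, Measurable g → (∀ η, 0 ≤ g η ∧ g η ≤ 1) → Integrable g (law μ) := fun hg hb =>
    Integrable.of_bound hg.aestronglyMeasurable 1 (Filter.Eventually.of_forall fun η => by
      rw [Real.norm_eq_abs, abs_le]
      exact ⟨by linarith [(hb η).1], (hb η).2⟩)
  have sb : ∀ {g : σ → Env → ℝ}, (∀ s ∈ S, ∀ η, 0 ≤ g s η ∧ g s η ≤ 1) → ∀ η, 0 ≤ ∑ s ∈ S, wt s η * g s η ∧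
      ∑ s ∈ S, wt s η * g s η ≤ 1 := fun hg η => by
    refine ⟨Finset.sum_nonneg fun s hs => mul_nonneg (hw0 s hs η) (hg s hs η).1, ?_⟩
    refine le_trans (Finset.sum_le_sum fun s hs => ?_) (hw1 η)
    have := mul_le_mul_of_nonneg_left (hg s hs η).2 (hw0 s hs η)
    linarith
  have i1 : Integrable (fun η => ∑ s ∈ S, wt s η * min 1 (F s η)) (law μ) :=
    ib (Finset.measurable_sum _ fun s hs => (hwm s hs).mul (measurable_const.min (hFm s)))
      (sb fun s hs η => ⟨le_min zero_le_one (hF0 s η), min_le_left _ _⟩)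
  have i2 : Integrable (fun η => ∑ s ∈ S, wt s η * (G s).indicator (fun _ => (1 : ℝ)) η) (law μ) :=
    ib (Finset.measurable_sum _ fun s hs => (hwm s hs).mul (measurable_const.indicator (hGm s hs)))
      (sb fun s hs η => ⟨Set.indicator_nonneg (fun _ _ => by norm_num) _, Set.indicator_le_self' (fun _ _ => by norm_num) _⟩)
  have hBm' : MeasurableSet (rsh φ ⁻¹' B) := measurable_rsh φ hBm
  have i3 : Integrable ((rsh φ ⁻¹' B).indicator fun _ => (1 : ℝ)) (law μ) :=
    (integrable_const 1).indicator hBm'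
  have i4 : Integrable (fun η => (∑ s ∈ S, wt s η * (G s).indicator (fun _ => (1 : ℝ)) η) +
      Q.card * Real.exp (-(K / 2))) (law μ) := i2.add (integrable_const _)
  have h1 := integral_mono i1 (i4.add i3) hpt
  refine h1.trans ?_
  have h2 : ∫ η, ((∑ s ∈ S, wt s η * (G s).indicator (fun _ => (1 : ℝ)) η) +
      Q.card * Real.exp (-(K / 2)) + (rsh φ ⁻¹' B).indicator (fun _ => (1 : ℝ)) η) ∂(law μ) =
      (∫ η, ∑ s ∈ S, wt s η * (G s).indicator (fun _ => (1 : ℝ)) η ∂(law μ)) + Q.card * Real.exp (-(K / 2)) +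
      ∫ η, (rsh φ ⁻¹' B).indicator (fun _ => (1 : ℝ)) η ∂(law μ) := by
    rw [integral_add i4 i3, integral_add i2 (integrable_const _), integral_const]
    simp
  have h3 : ∫ η, (rsh φ ⁻¹' B).indicator (fun _ => (1 : ℝ)) η ∂(law μ) = (law μ).real B := by
    rw [integral_indicator hBm', ← (mp_rsh (μ := μ) φ).measureReal_preimage hBm.nullMeasurableSet]
    simp [Measure.real]
  refine (le_of_eq h2).trans ?_
  rw [h3]
  have e : (Q.card : ℝ) * (Real.exp (-(a * M)) + Real.exp (-(K / 2))) =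
      Q.card * Real.exp (-(a * M)) + Q.card * Real.exp (-(K / 2)) := by ring
  rw [e]
  linarith

end

end Pool.Agent.W_7d29a1_Z82
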