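import Pool.Agent.W_7d29a1_X.Path89

/-!
STORM Z (superdiffusivity, MP_7d29a1_pr), leaf Z2: sums over paths (finite sets of up steps, as in `X/Path89.lean`) which stay in a
set of sites during a window of rows (helper82).
-/

namespace Pool.Agent.W_7d29a1_Z82

open Finset Pool.Agent.W_7d29a1_F Pool.Agent.W_7d29a1_X

noncomputable section

variable {μ : MeasureTheory.Measure ℝ} {s : ℝ}

/-- The path `S` is in `R` in the rows `t + 1, …, t + m`. -/
def okR (R : Set Pt) (t m : ℕ) (S : Finset ℕ) : Prop :=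
  ∀ i < m, ((((t + i : ℕ) : ℤ) + 1, pos S (t + i + 1)) : Pt) ∈ R

theorem okR_zero (R : Set Pt) (t : ℕ) (S : Finset ℕ) : okR R t 0 S := fun i hi => absurd hi (Nat.not_lt_zero i)

theorem okR_succ (R : Set Pt) (t m : ℕ) (S : Finset ℕ) :
    okR R t (m + 1) S ↔ okR R t m S ∧ ((((t + m : ℕ) : ℤ) + 1, pos S (t + m + 1)) : Pt) ∈ R := by
  constructor
  · exact fun h => ⟨fun i hi => h i (by omega), h m (by omega)⟩
  · rintro ⟨h1, h2⟩ i hi
    rcases Nat.lt_succ_iff_lt_or_eq.1 hi with h3 | h3
    · exact h1 i h3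
    · rw [h3]
      exact h2

theorem okR_insert (R : Set Pt) {t m : ℕ} {S : Finset ℕ} : okR R t m (insert (t + m) S) ↔ okR R t m S := by
  unfold okR
  refine forall_congr' fun i => forall_congr' fun hi => ?_
  rw [pos_insert (by omega)]

theorem okR_inter (R : Set Pt) {t m u : ℕ} {S : Finset ℕ} (h : t + m ≤ u) : okR R t m (S ∩ range u) ↔ okR R t m S := by
  unfold okR
  refine forall_congr' fun i => forall_congr' fun hi => ?_
  rw [pos_inter _ (by omega)]

/-- The last step of a restricted weight. -/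
theorem WR_succ82 (R : Set Pt) (η : Env) (a : Pt) (m : ℕ) (y : ℤ) :
    WR μ s R η a (m + 1) y = R.indicator (fun p => Real.exp (η p)) (a.1 + (m + 1), a.2 + y) * Real.exp (-lam μ s) *
      (WR μ s R η a m y + Real.exp s * WR μ s R η a m (y - 1)) := by
  unfold WR
  rw [Zr_succ89]
  have e1 : Real.exp (s * (y : ℝ) - ((m + 1 : ℕ) : ℝ) * lam μ s) =
      Real.exp (-lam μ s) * Real.exp (s * (y : ℝ) - m * lam μ s) := by
    rw [← Real.exp_add]
    congr 1
    push_cast
    ring
  have e2 : Real.exp (s * (y : ℝ) - m * lam μ s) =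
      Real.exp s * Real.exp (s * ((y - 1 : ℤ) : ℝ) - m * lam μ s) := by
    rw [← Real.exp_add]
    congr 1
    push_cast
    ring
  rw [e1, ← mul_assoc (Real.exp s), ← e2]
  ring

open Classical in
/-- MARKOV with a restriction in the window. -/
theorem Mt_addR (R : Set Pt) (η : Env) (t m : ℕ) (F : Finset ℕ → ℝ) (x' : ℤ) :
    Mt μ s η (t + m) (fun S => if okR R t m S then F (S ∩ range t) else 0) x' =
      ∑ x ∈ Icc (0 : ℤ) t, Mt μ s η t F x * WR μ s R η ((t : ℤ), x) m (x' - x) := by
  induction m generalizing x' with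
  | zero =>
    have h1 : ∀ x : ℤ, WR μ s R η ((t : ℤ), x) 0 (x' - x) = if x = x' then 1 else 0 := by
      intro x
      unfold WR
      rw [Zr_zero89]
      by_cases hx : x = x'
      · subst hx
        simp
      · rw [if_neg hx, if_neg (by omega), mul_zero]
    simp only [h1, mul_ite, mul_one, mul_zero, okR_zero, if_true]
    have h2 : Mt μ s η (t + 0) (fun S => F (S ∩ range t)) x' = Mt μ s η t F x' := by
      unfold Mt
      rw [Nat.add_zero]
      refine sum_congr rfl fun S hS => ?_
      rw [mem_powerset] at hS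
      beta_reduce
      rw [inter_eq_left.2 hS]
    rw [h2]
    by_cases hx : 0 ≤ x' ∧ x' ≤ t
    · rw [sum_eq_single_of_mem x' (mem_Icc.2 hx) fun b _ hb => if_neg hb, if_pos rfl]
    · rw [Mt_eq_zero η t F hx]
      refine (sum_eq_zero fun x hxx => ?_).symm
      rw [mem_Icc] at hxx
      rw [if_neg]
      rintro rfl
      exact hx hxx
  | succ m ih =>
    have h0 : ∀ S, S ⊆ range (t + m) → (fun S => if okR R t m S then F (S ∩ range t) else 0) (insert (t + m) S) =
        (fun S => if okR R t m S then F (S ∩ range t) else 0) S := by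
      intro S _
      show (if okR R t m (insert (t + m) S) then F (insert (t + m) S ∩ range t) else 0) =
        if okR R t m S then F (S ∩ range t) else 0
      rw [inter_insert (by omega)]
      by_cases h : okR R t m S
      · rw [if_pos h, if_pos ((okR_insert R).2 h)]
      · rw [if_neg h, if_neg fun h' => h ((okR_insert R).1 h')]
    have e4 : ∀ x : ℤ, ((((t + m : ℕ) : ℤ) + 1, x') : Pt) = (((t : ℤ), x).1 + ((m : ℤ) + 1), ((t : ℤ), x).2 + (x' - x)) := by
      intro x
      refine Prod.ext ?_ ?_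
      · show ((t + m : ℕ) : ℤ) + 1 = (t : ℤ) + ((m : ℤ) + 1)
        push_cast
        ring
      · show x' = x + (x' - x)
        ring
    have h1 : Mt μ s η (t + (m + 1)) (fun S => if okR R t (m + 1) S then F (S ∩ range t) else 0) x' =
        (if ((((t + m : ℕ) : ℤ) + 1, x') : Pt) ∈ R then 1 else 0) *
          Mt μ s η (t + m + 1) (fun S => if okR R t m S then F (S ∩ range t) else 0) x' := by
      unfold Mt
      rw [mul_sum]
      refine sum_congr rfl fun S _ => ?_
      by_cases hx : pos S (t + m + 1) = x'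
      · rw [← Nat.add_assoc, if_pos hx, if_pos hx]
        by_cases hR : ((((t + m : ℕ) : ℤ) + 1, x') : Pt) ∈ R
        · rw [if_pos hR, one_mul]
          congr 1
          beta_reduce
          by_cases h : okR R t m S
          · rw [if_pos h, if_pos ((okR_succ R t m S).2 ⟨h, by rw [hx]; exact hR⟩)]
          · rw [if_neg h, if_neg fun h' => h ((okR_succ R t m S).1 h').1]
        · rw [if_neg hR, zero_mul]
          beta_reduce
          rw [if_neg fun h' => hR (by
            have := ((okR_succ R t m S).1 h').2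
            rwa [hx] at this), mul_zero]
      · rw [← Nat.add_assoc, if_neg hx, if_neg hx, mul_zero]
    rw [h1, Mt_succ η (t + m) _ h0, ih, ih, mul_sum, ← sum_add_distrib, mul_sum, mul_sum]
    refine sum_congr rfl fun x _ => ?_
    rw [WR_succ82, ← e4 x]
    have e3 : x' - 1 - x = x' - x - 1 := by ring
    rw [e3]
    by_cases hR : ((((t + m : ℕ) : ℤ) + 1, x') : Pt) ∈ R
    · rw [if_pos hR, Set.indicator_of_mem hR]
      ring
    · rw [if_neg hR, Set.indicator_of_notMem hR]
      ring

open Classical in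
/-- Three portions: free, restricted, free. -/
theorem mid_sum (R : Set Pt) (η : Env) (t n k : ℕ) (g : ℤ → ℤ → ℝ) (y : ℤ) :
    Mt μ s η (t + n + k) (fun S => if okR R t n S then g (pos S t) (pos S (t + n)) else 0) y =
      ∑ x' ∈ Icc (0 : ℤ) ((t + n : ℕ) : ℤ), ∑ x ∈ Icc (0 : ℤ) t, g x x' * W μ s η 0 t x *
        WR μ s R η ((t : ℤ), x) n (x' - x) * W μ s η (((t + n : ℕ) : ℤ), x') k (y - x') := by
  obtain ⟨H, hH⟩ : ∃ H : Finset ℕ → ℝ, H = fun S => if okR R t n S then g (pos S t) (pos S (t + n)) else 0 := ⟨_, rfl⟩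
  have h1 : (fun S => if okR R t n S then g (pos S t) (pos S (t + n)) else 0) = fun S => H (S ∩ range (t + n)) := by
    funext S
    rw [hH]
    show _ = if okR R t n (S ∩ range (t + n)) then g (pos (S ∩ range (t + n)) t) (pos (S ∩ range (t + n)) (t + n)) else 0
    rw [pos_inter _ (by omega), pos_inter _ le_rfl]
    by_cases h : okR R t n S
    · rw [if_pos h, if_pos ((okR_inter R le_rfl).2 h)]
    · rw [if_neg h, if_neg fun h' => h ((okR_inter R le_rfl).1 h')]
  rw [h1, Mt_add η (t + n) k H y]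
  refine sum_congr rfl fun x' _ => ?_
  have h2 : Mt μ s η (t + n) H x' =
      Mt μ s η (t + n) (fun S => if okR R t n S then (fun S => g (pos S t) x') (S ∩ range t) else 0) x' := by
    unfold Mt
    refine sum_congr rfl fun S _ => ?_
    by_cases hx : pos S (t + n) = x'
    · rw [if_pos hx, if_pos hx, hH]
      congr 1
      show (if okR R t n S then g (pos S t) (pos S (t + n)) else 0) = if okR R t n S then g (pos (S ∩ range t) t) x' else 0
      rw [pos_inter _ le_rfl, hx]
    · rw [if_neg hx, if_neg hx]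
  rw [h2.trans (Mt_addR (μ := μ) (s := s) R η t n (fun S => g (pos S t) x') x'), sum_mul]
  refine sum_congr rfl fun x _ => ?_
  have h3 : Mt μ s η t (fun S => g (pos S t) x') x = g x x' * W μ s η 0 t x := by
    rw [← Mt_one (μ := μ) (s := s) η t x]
    unfold Mt
    rw [mul_sum]
    refine sum_congr rfl fun S _ => ?_
    by_cases hx : pos S t = x
    · rw [if_pos hx, if_pos hx]
      beta_reduce
      rw [hx]
      ring
    · rw [if_neg hx, if_neg hx, mul_zero]
  rw [h3]

open Classical in
/-- The weight of the paths which are in `R` in the window and enter and leave it through `Q`. -/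
theorem mid_le (R : Set Pt) (η : Env) (t n k : ℕ) (Q : Finset (ℤ × ℤ)) (y : ℤ) :
    Mt μ s η (t + n + k) (fun S => if okR R t n S ∧ (pos S t, pos S (t + n) - pos S t) ∈ Q then 1 else 0) y ≤
      (∑ q ∈ Q, WR μ s R η ((t : ℤ), q.1) n q.2 / W μ s η ((t : ℤ), q.1) n q.2) * W μ s η 0 (t + n + k) y := by
  have h1 : (fun S : Finset ℕ => if okR R t n S ∧ (pos S t, pos S (t + n) - pos S t) ∈ Q then (1 : ℝ) else 0) =
      fun S => if okR R t n S then (fun x x' : ℤ => if (x, x' - x) ∈ Q then (1 : ℝ) else 0) (pos S t) (pos S (t + n)) else 0 := by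
    funext S
    by_cases h : okR R t n S
    · rw [if_pos h]
      simp only [h, true_and]
    · rw [if_neg h, if_neg fun h' => h h'.1]
  rw [h1, mid_sum R η t n k (fun x x' : ℤ => if (x, x' - x) ∈ Q then (1 : ℝ) else 0) y]
  have h2 : ∀ x' x : ℤ, (if (x, x' - x) ∈ Q then (1 : ℝ) else 0) * W μ s η 0 t x *
      WR μ s R η ((t : ℤ), x) n (x' - x) * W μ s η (((t + n : ℕ) : ℤ), x') k (y - x') ≤
      if (x, x' - x) ∈ Q then WR μ s R η ((t : ℤ), x) n (x' - x) / W μ s η ((t : ℤ), x) n (x' - x) *
        W μ s η 0 (t + n + k) y else 0 := by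
    intro x' x
    split_ifs with hq
    · rw [one_mul]
      by_cases hW : W μ s η ((t : ℤ), x) n (x' - x) = 0
      · have h3 : WR μ s R η ((t : ℤ), x) n (x' - x) = 0 := le_antisymm (by
          rw [← hW]
          exact WR_le_W _ _ _ _ _) (WR_nonneg _ _ _ _ _)
        rw [h3, mul_zero, zero_mul, zero_div, zero_mul]
      · have h3 : W μ s η 0 t x * W μ s η ((t : ℤ), x) n (x' - x) * W μ s η (((t + n : ℕ) : ℤ), x') k (y - x') ≤
            W μ s η 0 (t + n + k) y := by
          have h4 := W_mul_le (μ := μ) (s := s) η 0 t n x (x' - x)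
          have e1 : ((0 : Pt).1 + (t : ℤ), (0 : Pt).2 + x) = (((t : ℤ), x) : Pt) := by
            refine Prod.ext ?_ ?_
            · show (0 : ℤ) + t = t
              ring
            · show (0 : ℤ) + x = x
              ring
          rw [e1] at h4
          have h5 := W_mul_le (μ := μ) (s := s) η 0 (t + n) k (x + (x' - x)) (y - x')
          have e2 : ((0 : Pt).1 + ((t + n : ℕ) : ℤ), (0 : Pt).2 + (x + (x' - x))) = ((((t + n : ℕ) : ℤ), x') : Pt) := by
            refine Prod.ext ?_ ?_
            · show (0 : ℤ) + ((t + n : ℕ) : ℤ) = ((t + n : ℕ) : ℤ)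
              ring
            · show (0 : ℤ) + (x + (x' - x)) = x'
              ring
          have e3 : x + (x' - x) + (y - x') = y := by ring
          rw [e2, e3] at h5
          exact (mul_le_mul_of_nonneg_right h4 (W_nonneg _ _ _ _)).trans h5
        have h4 : 0 ≤ WR μ s R η ((t : ℤ), x) n (x' - x) / W μ s η ((t : ℤ), x) n (x' - x) :=
          div_nonneg (WR_nonneg _ _ _ _ _) (W_nonneg _ _ _ _)
        have h5 := mul_le_mul_of_nonneg_left h3 h4
        refine le_trans (le_of_eq ?_) h5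
        field_simp
    · rw [zero_mul, zero_mul, zero_mul]
  refine (sum_le_sum fun x' _ => sum_le_sum fun x _ => h2 x' x).trans ?_
  rw [sum_mul, ← sum_product']
  obtain ⟨f, hf⟩ : ∃ f : ℤ × ℤ → ℝ, f = fun q => WR μ s R η ((t : ℤ), q.1) n q.2 / W μ s η ((t : ℤ), q.1) n q.2 *
    W μ s η 0 (t + n + k) y := ⟨_, rfl⟩
  have hf0 : ∀ q, 0 ≤ f q := fun q => by
    rw [hf]
    exact mul_nonneg (div_nonneg (WR_nonneg _ _ _ _ _) (W_nonneg _ _ _ _)) (W_nonneg _ _ _ _)
  have h3 : ∑ p ∈ Icc (0 : ℤ) ((t + n : ℕ) : ℤ) ×ˢ Icc (0 : ℤ) t, (if (p.2, p.1 - p.2) ∈ Q then f (p.2, p.1 - p.2) else 0) ≤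
      ∑ q ∈ Q, f q := by
    rw [← sum_filter]
    have h4 : ∑ p ∈ (Icc (0 : ℤ) ((t + n : ℕ) : ℤ) ×ˢ Icc (0 : ℤ) t).filter (fun p => (p.2, p.1 - p.2) ∈ Q),
        f (p.2, p.1 - p.2) = ∑ q ∈ ((Icc (0 : ℤ) ((t + n : ℕ) : ℤ) ×ˢ Icc (0 : ℤ) t).filter
          (fun p => (p.2, p.1 - p.2) ∈ Q)).image (fun p : ℤ × ℤ => (p.2, p.1 - p.2)), f q := by
      rw [sum_image]
      rintro ⟨a, b⟩ _ ⟨c, d⟩ _ h
      simp only [Prod.mk.injEq] at h
      refine Prod.ext ?_ ?_
      · show a = c
        omega
      · show b = d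
        omega
    rw [h4]
    refine sum_le_sum_of_subset_of_nonneg ?_ fun q _ _ => hf0 q
    intro q hq
    rw [mem_image] at hq
    obtain ⟨p, hp, rfl⟩ := hq
    exact (mem_filter.1 hp).2
  rw [hf] at h3
  exact h3

end

end Pool.Agent.W_7d29a1_Z82
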