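import Pool.Agent.W_7d29a1_Z82.Core
import Pool.Agent.W_7d29a1_Z82.Mid

/-!
STORM Z (superdiffusivity, MP_7d29a1_pr), leaf Z2: the fresh tube lemma for pairs of paths (helper82). `S` is sampled from weights
which are decreasing in the environment off the path (for instance the point to point Gibbs law `Gp`), `S'` from the point to point
Gibbs law in the environment with shifted rows; the probability that `S'` stays in the tube of radius `ρ` around `S` during the rows
`t..t + M l`, does not touch it in the rows `t + 1..t + M l`, and enters and leaves the window through `Q`, is small.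
-/

namespace Pool.Agent.W_7d29a1_Z82

open MeasureTheory ProbabilityTheory Filter Topology
open Pool.Agent.W_7d29a1_F Pool.Agent.W_7d29a1_h4g Pool.Agent.W_7d29a1_G Pool.Agent.W_7d29a1_L
open Pool.Agent.W_7d29a1_SL Pool.Agent.W_7d29a1_SR Pool.Agent.W_7d29a1_NR
open Pool.Agent.W_7d29a1_X (pos pth Mt pos_nonneg pos_le pth_nonneg Mt_one)
open Pool.Agent.W_7d29a1_h48 (W_mono_env)

noncomputable section

variable {μ : Measure ℝ}

/-- The point to point Gibbs weight of the path `S` from the origin to `(N, y)`. -/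
def Gp (μ : Measure ℝ) (η : Env) (N : ℕ) (y : ℤ) (S : Finset ℕ) : ℝ :=
  (if pos S N = y then pth μ 0 η N S else 0) / W μ 0 η 0 N y

theorem Gp_nonneg (η : Env) (N : ℕ) (y : ℤ) (S : Finset ℕ) : 0 ≤ Gp μ η N y S := by
  unfold Gp
  refine div_nonneg ?_ (W_nonneg _ _ _ _)
  split_ifs
  · exact pth_nonneg _ _ _
  · exact le_rfl

theorem Gp_sum_le (η : Env) (N : ℕ) (y : ℤ) : ∑ S ∈ (Finset.range N).powerset, Gp μ η N y S ≤ 1 := by
  unfold Gp
  rw [← Finset.sum_div]
  have h1 : ∑ S ∈ (Finset.range N).powerset, (if pos S N = y then pth μ 0 η N S else 0) = W μ 0 η 0 N y := by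
    rw [← Mt_one (μ := μ) (s := 0) η N y]
    unfold Mt
    simp only [mul_one]
  rw [h1]
  exact div_self_le_one _

theorem measurable_pth (t : ℕ) (S : Finset ℕ) : Measurable fun η : Env => pth μ 0 η t S := by
  unfold pth
  refine measurable_const.mul ?_
  exact Finset.measurable_prod _ fun i _ => Real.measurable_exp.comp (measurable_pi_apply _)

theorem measurable_Gp (N : ℕ) (y : ℤ) (S : Finset ℕ) : Measurable fun η : Env => Gp μ η N y S := by
  unfold Gp
  refine Measurable.div ?_ (measurable_W _ _ _)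
  split_ifs
  · exact measurable_pth N S
  · exact measurable_const

/-- The path as a function of the row. -/
def ps (S : Finset ℕ) (i : ℤ) : ℤ := pos S i.toNat

theorem ps_nat (S : Finset ℕ) (i : ℕ) : ps S i = pos S i := by
  unfold ps
  rw [Int.toNat_natCast]

/-- The Gibbs weight of a path is decreasing in the environment off the path. -/
theorem Gp_anti (N : ℕ) (y : ℤ) (S : Finset ℕ) {η η' : Env} (h : ∀ p, η p ≤ η' p)
    (he : ∀ i : ℤ, η (i, ps S i) = η' (i, ps S i)) : Gp μ η' N y S ≤ Gp μ η N y S := by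
  unfold Gp
  by_cases hy : pos S N = y
  · rw [if_pos hy, if_pos hy]
    have h1 : pth μ 0 η' N S = pth μ 0 η N S := by
      unfold pth
      congr 1
      refine Finset.prod_congr rfl fun i _ => ?_
      have h2 := he ((i : ℤ) + 1)
      have h3 : ps S ((i : ℤ) + 1) = pos S (i + 1) := by
        have : ((i : ℤ) + 1) = ((i + 1 : ℕ) : ℤ) := by push_cast; ring
        rw [this, ps_nat]
      rw [h3] at h2
      rw [h2]
    rw [h1]
    have h2 : 0 < W μ 0 η 0 N y := W_pos η 0 (hy ▸ pos_nonneg _ _) (hy ▸ pos_le _ _)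
    exact div_le_div_of_nonneg_left (pth_nonneg _ _ _) h2 (W_mono_env h 0 N y)
  · rw [if_neg hy, if_neg hy, zero_div, zero_div]

/-- `S'` (seen in the shifted environment) stays in the tube of radius `ρ` around `S` in the rows `t..t + n`, does not touch it in the
rows `t + 1..t + n`, and `(S'_t, S'_(t+n) - S'_t) ∈ Q`. -/
def close (φ : ℤ → ℤ) (ρ t n : ℕ) (Q : Finset (ℤ × ℤ)) (S S' : Finset ℕ) : Prop :=
  (∀ i ≤ n, |pos S' (t + i) - φ ((t + i : ℕ) : ℤ) - pos S (t + i)| ≤ ρ) ∧
  (∀ i < n, pos S' (t + i + 1) - φ ((t + i + 1 : ℕ) : ℤ) ≠ pos S (t + i + 1)) ∧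
  (pos S' t, pos S' (t + n) - pos S' t) ∈ Q

open Classical in
/-- The quenched probability of the second path, given the first. -/
theorem close_le (η : Env) (φ : ℤ → ℤ) (ρ t n k : ℕ) (Q : Finset (ℤ × ℤ)) (y : ℤ) (S : Finset ℕ) :
    ∑ S' ∈ (Finset.range (t + n + k)).powerset, Gp μ η (t + n + k) y S' * (if close φ ρ t n Q S S' then 1 else 0) ≤
      min 1 (∑ q ∈ Q.filter (fun q => |q.1 - φ t - ps S t| ≤ ρ),
        WR μ 0 (Rt φ (ps S) ρ) η ((t : ℤ), q.1) n q.2 / W μ 0 η ((t : ℤ), q.1) n q.2) := by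
  refine le_min ?_ ?_
  · refine le_trans (Finset.sum_le_sum fun S' _ => ?_) (Gp_sum_le (μ := μ) η (t + n + k) y)
    have := Gp_nonneg (μ := μ) η (t + n + k) y S'
    split_ifs
    · rw [mul_one]
    · rw [mul_zero]
      exact this
  · obtain ⟨Qf, hQf⟩ : ∃ Qf : Finset (ℤ × ℤ), Qf = Q.filter (fun q => |q.1 - φ t - ps S t| ≤ ρ) := ⟨_, rfl⟩
    rw [← hQf]
    have h1 := mid_le (μ := μ) (s := 0) (Rt φ (ps S) ρ) η t n k Qf y
    have h2 : ∑ S' ∈ (Finset.range (t + n + k)).powerset, Gp μ η (t + n + k) y S' *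
        (if close φ ρ t n Q S S' then 1 else 0) ≤
        Mt μ 0 η (t + n + k) (fun S' => if okR (Rt φ (ps S) ρ) t n S' ∧ (pos S' t, pos S' (t + n) - pos S' t) ∈ Qf then 1
          else 0) y / W μ 0 η 0 (t + n + k) y := by
      unfold Mt
      rw [Finset.sum_div]
      refine Finset.sum_le_sum fun S' _ => ?_
      unfold Gp
      by_cases hy : pos S' (t + n + k) = y
      · rw [if_pos hy, if_pos hy, div_mul_eq_mul_div]
        refine div_le_div_of_nonneg_right ?_ (W_nonneg _ _ _ _)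
        refine mul_le_mul_of_nonneg_left ?_ (pth_nonneg _ _ _)
        beta_reduce
        by_cases hc : close φ ρ t n Q S S'
        · rw [if_pos hc, if_pos]
          refine ⟨fun i hi => ?_, ?_⟩
          · have h3 := hc.1 (i + 1) hi
            have h4 := hc.2.1 i hi
            have e1 : ((t + i : ℕ) : ℤ) + 1 = ((t + i + 1 : ℕ) : ℤ) := by push_cast; ring
            refine ⟨?_, ?_⟩
            · show |pos S' (t + i + 1) - φ (((t + i : ℕ) : ℤ) + 1) - ps S (((t + i : ℕ) : ℤ) + 1)| ≤ ρ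
              rw [e1, ps_nat]
              exact h3
            · show pos S' (t + i + 1) - φ (((t + i : ℕ) : ℤ) + 1) ≠ ps S (((t + i : ℕ) : ℤ) + 1)
              rw [e1, ps_nat]
              exact h4
          · rw [hQf, Finset.mem_filter]
            refine ⟨hc.2.2, ?_⟩
            show |pos S' t - φ t - ps S t| ≤ ρ
            rw [ps_nat]
            exact hc.1 0 (Nat.zero_le n)
        · rw [if_neg hc]
          split_ifs
          · norm_num
          · exact le_rfl
      · rw [if_neg hy, if_neg hy, zero_div, zero_mul]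
    refine h2.trans ?_
    have h3 := W_nonneg (μ := μ) (s := 0) η 0 (t + n + k) y
    rcases h3.eq_or_lt with h4 | h4
    · rw [← h4, div_zero]
      exact Finset.sum_nonneg fun q _ => div_nonneg (WR_nonneg _ _ _ _ _) (W_nonneg _ _ _ _)
    · rw [div_le_iff₀ h4]
      exact h1

variable [IsProbabilityMeasure μ] {c C : ℝ} {n₀ : ℕ}

open Classical in
/-- **The fresh tube lemma** for pairs of paths. -/
theorem pair (h : In μ c C n₀) : ∃ κ a : ℝ, 0 < κ ∧ 0 < a ∧ ∃ J n₁ : ℕ, ∀ r l ρ : ℕ, n₁ ≤ r → 2 ^ J * r ≤ l →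
    ((2 * ρ + 1 : ℕ) : ℝ) ≤ c * wd μ r → ∀ (M t k N : ℕ) (φ : ℤ → ℤ) (y y' : ℤ) (Q : Finset (ℤ × ℤ)),
    ∫ η, ∑ S ∈ (Finset.range N).powerset, Gp μ η N y S *
      ∑ S' ∈ (Finset.range (t + M * l + k)).powerset, Gp μ (rsh φ η) (t + M * l + k) y' S' *
        (if close φ ρ t (M * l) Q S S' then 1 else 0) ∂(law μ) ≤
    Q.card * (Real.exp (-(a * M)) + Real.exp (-(κ * (M * EE μ l) / 2))) +
      (law μ).real {η | ∃ q ∈ Q, W μ 0 η ((t : ℤ), q.1) (M * l) q.2 < Real.exp (-(κ * (M * EE μ l) / 2))} := by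
  obtain ⟨κ, a, hκ, ha, J, n₁, hcore⟩ := core h
  refine ⟨κ, a, hκ, ha, J, n₁, fun r l ρ hr hrl hw M t k N φ y y' Q => ?_⟩
  have h1 := hcore r l ρ hr hrl hw M t φ (Finset.range N).powerset ps (fun S η => Gp μ η N y S) Q
    (fun S _ => measurable_Gp N y S) (fun S _ η => Gp_nonneg η N y S) (fun η => Gp_sum_le η N y)
    (fun S _ η η' h2 h3 => Gp_anti N y S h2 h3)
  refine le_trans ?_ h1
  have hm : ∀ S : Finset ℕ, Measurable fun η : Env => ∑ S' ∈ (Finset.range (t + M * l + k)).powerset,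
      Gp μ (rsh φ η) (t + M * l + k) y' S' * (if close φ ρ t (M * l) Q S S' then (1 : ℝ) else 0) := fun S =>
    Finset.measurable_sum _ fun S' _ => ((measurable_Gp _ y' S').comp (measurable_rsh φ)).mul_const _
  have hm2 : ∀ S : Finset ℕ, Measurable fun η : Env => min 1 (∑ q ∈ Q.filter (fun q => |q.1 - φ t - ps S t| ≤ ρ),
      WR μ 0 (Rt φ (ps S) ρ) (rsh φ η) ((t : ℤ), q.1) (M * l) q.2 / W μ 0 (rsh φ η) ((t : ℤ), q.1) (M * l) q.2) := fun S =>
    measurable_const.min (Finset.measurable_sum _ fun q _ => ((measurable_WR _ _ _ _).comp (measurable_rsh φ)).div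
      ((measurable_W _ _ _).comp (measurable_rsh φ)))
  have hb : ∀ (g : Finset ℕ → Env → ℝ), (∀ S, Measurable (g S)) → (∀ S η, 0 ≤ g S η ∧ g S η ≤ 1) →
      Integrable (fun η => ∑ S ∈ (Finset.range N).powerset, Gp μ η N y S * g S η) (law μ) := by
    intro g hg hg1
    refine Integrable.of_bound (Finset.measurable_sum _ fun S _ => (measurable_Gp N y S).mul (hg S)).aestronglyMeasurable 1
      (Filter.Eventually.of_forall fun η => ?_)
    have h2 : 0 ≤ ∑ S ∈ (Finset.range N).powerset, Gp μ η N y S * g S η :=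
      Finset.sum_nonneg fun S _ => mul_nonneg (Gp_nonneg _ _ _ _) (hg1 S η).1
    have h3 : ∑ S ∈ (Finset.range N).powerset, Gp μ η N y S * g S η ≤ 1 := by
      refine le_trans (Finset.sum_le_sum fun S _ => ?_) (Gp_sum_le (μ := μ) η N y)
      have := mul_le_mul_of_nonneg_left (hg1 S η).2 (Gp_nonneg (μ := μ) η N y S)
      linarith
    rw [Real.norm_eq_abs, abs_of_nonneg h2]
    exact h3
  refine integral_mono (hb _ hm fun S η => ?_) (hb _ hm2 fun S η => ?_) fun η => ?_
  · refine ⟨Finset.sum_nonneg fun S' _ => mul_nonneg (Gp_nonneg _ _ _ _) (by split_ifs <;> norm_num), ?_⟩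
    exact (close_le (rsh φ η) φ ρ t (M * l) k Q y' S).trans (min_le_left _ _)
  · exact ⟨le_min zero_le_one (Finset.sum_nonneg fun q _ => div_nonneg (WR_nonneg _ _ _ _ _) (W_nonneg _ _ _ _)),
      min_le_left _ _⟩
  · exact Finset.sum_le_sum fun S _ => mul_le_mul_of_nonneg_left (close_le (rsh φ η) φ ρ t (M * l) k Q y' S)
      (Gp_nonneg _ _ _ _)

end

end Pool.Agent.W_7d29a1_Z82
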