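import Pool.Agent.W_7d29a1_F.Defs
import Pool.Agent.W_7d29a1_h48.Har

/-!
STORM Z (superdiffusivity, MP_7d29a1_pr), leaf Z2, part (b): domination off a path (helper82). Under the quenched law of the
path `s` the environment off `s` is dominated by the fresh environment: `∑ w_s 1_{G_s}` has mean at most `sup P(G_s)`, when `w_s` is
decreasing in the sites of `D s` and `G_s` is increasing and depends only on the sites of `D s`.
-/

namespace Pool.Agent.W_7d29a1_Z82

open MeasureTheory ProbabilityTheory Filter Topology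
open Pool.Agent.W_7d29a1_F
open Pool.Agent.W_7d29a1_h48 (MonoOn harrisB)

noncomputable section

variable {μ : Measure ℝ}

/-- **Domination off a path.** -/
theorem dom [IsProbabilityMeasure μ] {σ : Type*} (S : Finset σ) {w : σ → Env → ℝ} {G : σ → Set Env} {D : σ → Finset Pt}
    {δ : ℝ} (hwm : ∀ s ∈ S, Measurable (w s)) (hw0 : ∀ s ∈ S, ∀ η, 0 ≤ w s η) (hw1 : ∀ η, ∑ s ∈ S, w s η ≤ 1)
    (hwd : ∀ s ∈ S, ∀ η η' : Env, (∀ p, η p ≤ η' p) → (∀ p, p ∉ D s → η p = η' p) → w s η' ≤ w s η)
    (hGm : ∀ s ∈ S, MeasurableSet (G s))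
    (hGi : ∀ s ∈ S, ∀ η η' : Env, (∀ p, η p ≤ η' p) → (∀ p, p ∉ D s → η p = η' p) → η ∈ G s → η' ∈ G s)
    (hGd : ∀ s ∈ S, ∀ η η' : Env, (∀ p ∈ D s, η p = η' p) → (η ∈ G s ↔ η' ∈ G s))
    (hδ : ∀ s ∈ S, (law μ).real (G s) ≤ δ) (hδ0 : 0 ≤ δ) :
    ∫ η, ∑ s ∈ S, w s η * (G s).indicator (fun _ => (1 : ℝ)) η ∂(law μ) ≤ δ := by
  have hw1' : ∀ s ∈ S, ∀ η, w s η ≤ 1 := fun s hs η =>
    (Finset.single_le_sum (f := fun s => w s η) (fun s hs => hw0 s hs η) hs).trans (hw1 η)
  have bi : ∀ (A : Set Env) (g : Env), |A.indicator (fun _ => (1 : ℝ)) g| ≤ 1 := by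
    intro A g
    by_cases hg : g ∈ A
    · rw [Set.indicator_of_mem hg, abs_one]
    · rw [Set.indicator_of_notMem hg, abs_zero]
      norm_num
  have hint : ∀ s ∈ S, Integrable (w s) (law μ) := fun s hs =>
    Integrable.of_bound (hwm s hs).aestronglyMeasurable 1 (Filter.Eventually.of_forall fun g => by
      rw [Real.norm_eq_abs, abs_le]
      exact ⟨by linarith [hw0 s hs g], hw1' s hs g⟩)
  have hint2 : ∀ s ∈ S, Integrable (fun η => w s η * (G s).indicator (fun _ => (1 : ℝ)) η) (law μ) := fun s hs =>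
    Integrable.of_bound ((hwm s hs).mul (measurable_const.indicator (hGm s hs))).aestronglyMeasurable 1
      (Filter.Eventually.of_forall fun g => by
        rw [Real.norm_eq_abs, abs_mul]
        have h1 : |w s g| ≤ 1 := by
          rw [abs_le]
          exact ⟨by linarith [hw0 s hs g], hw1' s hs g⟩
        have h2 := bi (G s) g
        have h3 := mul_le_mul h1 h2 (abs_nonneg _) zero_le_one
        linarith)
  rw [integral_finset_sum _ hint2]
  have h1 : ∀ s ∈ S, ∫ η, w s η * (G s).indicator (fun _ => (1 : ℝ)) η ∂(law μ) ≤ (∫ η, w s η ∂(law μ)) * δ := by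
    intro s hs
    have h2 := harrisB (ι := Pt) (μ := μ) (D s) (F := fun η => -w s η) (G := (G s).indicator fun _ => (1 : ℝ))
      (hwm s hs).neg (measurable_const.indicator (hGm s hs)) (a := 1) (b := 1) (fun g => by
        rw [abs_neg, abs_le]
        exact ⟨by linarith [hw0 s hs g], hw1' s hs g⟩) (bi (G s)) (fun g g' h3 h4 => by
        have := hwd s hs g g' h3 fun p hp => h4 p (by simpa using hp)
        show -w s g ≤ -w s g'
        linarith) (fun g g' h3 h4 => by
        by_cases hg : g ∈ G s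
        · rw [Set.indicator_of_mem hg, Set.indicator_of_mem (hGi s hs g g' h3 (fun p hp => h4 p (by simpa using hp)) hg)]
        · rw [Set.indicator_of_notMem hg]
          exact Set.indicator_nonneg (fun _ _ => by norm_num) g') (fun g g' h3 => by
        have h4 := hGd s hs g g' fun p hp => h3 p hp
        by_cases hg : g ∈ G s
        · rw [Set.indicator_of_mem hg, Set.indicator_of_mem (h4.1 hg)]
        · rw [Set.indicator_of_notMem hg, Set.indicator_of_notMem fun h => hg (h4.2 h)])
    have h5 : (∫ η, -w s η ∂(law μ)) * (∫ η, (G s).indicator (fun _ => (1 : ℝ)) η ∂(law μ)) ≤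
        ∫ η, -w s η * (G s).indicator (fun _ => (1 : ℝ)) η ∂(law μ) := h2
    have h6 : ∫ η, (G s).indicator (fun _ => (1 : ℝ)) η ∂(law μ) = (law μ).real (G s) := by
      rw [integral_indicator (hGm s hs)]
      simp [Measure.real]
    have h7 : ∫ η, -w s η * (G s).indicator (fun _ => (1 : ℝ)) η ∂(law μ) =
        -∫ η, w s η * (G s).indicator (fun _ => (1 : ℝ)) η ∂(law μ) := by
      rw [← integral_neg]
      refine integral_congr_ae (Filter.Eventually.of_forall fun η => ?_)
      show -w s η * (G s).indicator (fun _ => (1 : ℝ)) η = -(w s η * (G s).indicator (fun _ => (1 : ℝ)) η)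
      ring
    rw [h6, h7, integral_neg] at h5
    have h8 : 0 ≤ ∫ η, w s η ∂(law μ) := integral_nonneg (hw0 s hs)
    have h9 := mul_le_mul_of_nonneg_left (hδ s hs) h8
    linarith
  refine (Finset.sum_le_sum h1).trans ?_
  rw [← Finset.sum_mul, ← integral_finset_sum _ hint]
  have h2 : ∫ η, ∑ s ∈ S, w s η ∂(law μ) ≤ 1 := by
    have h3 := integral_mono (integrable_finset_sum S hint) (integrable_const (μ := law μ) (1 : ℝ)) hw1
    rw [integral_const] at h3
    simpa using h3
  have h3 := mul_le_mul_of_nonneg_right h2 hδ0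
  linarith

/-- The Gibbs weight of a path is decreasing in the sites off the path: `w s = b s / ∑ b`, `b s` does not depend on the sites
off `s`, all `b` are increasing. -/
theorem gibbs_anti {σ : Type*} {S : Finset σ} {b : σ → Env → ℝ} (hb : ∀ s ∈ S, ∀ η, 0 < b s η)
    (hbm : ∀ s ∈ S, ∀ η η' : Env, (∀ p, η p ≤ η' p) → b s η ≤ b s η') {s : σ} (hs : s ∈ S) {η η' : Env}
    (h : ∀ p, η p ≤ η' p) (he : b s η' = b s η) : b s η' / ∑ s' ∈ S, b s' η' ≤ b s η / ∑ s' ∈ S, b s' η := by
  rw [he]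
  have h1 : 0 < ∑ s' ∈ S, b s' η := Finset.sum_pos (fun s' hs' => hb s' hs' η) ⟨s, hs⟩
  exact div_le_div_of_nonneg_left (hb s hs η).le h1 (Finset.sum_le_sum fun s' hs' => hbm s' hs' η η' h)

end

end Pool.Agent.W_7d29a1_Z82
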