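import Pool.Agent.W_7d29a1_NR.Cell

/-!
STORM Z (superdiffusivity, MP_7d29a1_pr), leaf Z2, part (a): the fresh tube of a fixed shape (helper82). In a fresh
environment the paths which visit given cells of width `w ≤ c wd r` at the times `t + j l` (`2^J r ≤ l`) lose
`κ EE l` per slab, with exponentially small exceptional probability.
-/

namespace Pool.Agent.W_7d29a1_Z82

open MeasureTheory ProbabilityTheory Filter Topology
open Pool.Agent.W_7d29a1_F Pool.Agent.W_7d29a1_h4g Pool.Agent.W_7d29a1_G Pool.Agent.W_7d29a1_L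
open Pool.Agent.W_7d29a1_SL Pool.Agent.W_7d29a1_SR Pool.Agent.W_7d29a1_NR

noncomputable section

variable {μ : Measure ℝ}

theorem exp_quad_neg {x : ℝ} (hx : x ≤ 0) : Real.exp x ≤ 1 + x + x ^ 2 := by
  -- `e^{-y} (1 + y + y²/2) ≥ 1` ...
  have h1 : 1 ≤ (1 + x + x ^ 2) * Real.exp (-x) := by
    have h2 := Real.add_one_le_exp (-x)
    have h3 := Real.quadratic_le_exp_of_nonneg (x := -x) (by linarith)
    have h4 : 0 ≤ 1 + x + x ^ 2 := by nlinarith [sq_nonneg (x + 1)]
    have h5 := mul_le_mul_of_nonneg_left h3 h4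
    have h6 : 1 ≤ (1 + x + x ^ 2) * (1 + -x + (-x) ^ 2 / 2) := by
      have h7 : (1 + x + x ^ 2) * (1 + -x + (-x) ^ 2 / 2) = 1 + x ^ 2 * (1 / 2 + (-x) / 2 + x ^ 2 / 2) := by ring
      rw [h7]
      have h8 : 0 ≤ x ^ 2 * (1 / 2 + (-x) / 2 + x ^ 2 / 2) := by
        apply mul_nonneg (sq_nonneg _)
        nlinarith [sq_nonneg x]
      linarith
    linarith
  have h2 := mul_le_mul_of_nonneg_right h1 (Real.exp_pos x).le
  rw [one_mul, mul_assoc, ← Real.exp_add, neg_add_cancel, Real.exp_zero, mul_one] at h2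
  exact h2

theorem exp_quad_pos {x : ℝ} (hx : 0 ≤ x) : Real.exp x ≤ 1 + x + x ^ 2 * Real.exp x := by
  -- `1 ≤ (1 + x) e^{-x} + x²`, from `e^{-x} ≥ 1 - x`
  have h1 := Real.add_one_le_exp (-x)
  have h2 : 1 ≤ (1 + x) * Real.exp (-x) + x ^ 2 := by
    have h3 := mul_le_mul_of_nonneg_left h1 (show 0 ≤ 1 + x by linarith)
    nlinarith
  have h3 := mul_le_mul_of_nonneg_right h2 (Real.exp_pos x).le
  rw [one_mul, add_mul, mul_assoc, ← Real.exp_add, neg_add_cancel, Real.exp_zero, mul_one] at h3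
  exact h3

/-- The quadratic bound of the exponential. -/
theorem exp_bound {f g D θ : ℝ} (hD : 0 < D) (hθ : 0 ≤ θ) (hθD : θ ≤ 1 / (2 * D)) (hfg : -f ≤ g) (_hg : 0 ≤ g) {G : ℝ}
    (hG : Real.exp (max f 0 / D) ≤ G) :
    Real.exp (θ * f) ≤ 1 + θ * f + θ ^ 2 * (g ^ 2 + 8 * D ^ 2 * G) := by
  have hG0 : 0 ≤ G := (Real.exp_pos _).le.trans hG
  rcases le_total f 0 with hf | hf
  · have h1 := exp_quad_neg (x := θ * f) (mul_nonpos_of_nonneg_of_nonpos hθ hf)
    have h2 : f ^ 2 ≤ g ^ 2 := by nlinarith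
    have h3 : (θ * f) ^ 2 ≤ θ ^ 2 * (g ^ 2 + 8 * D ^ 2 * G) := by
      rw [mul_pow]
      refine mul_le_mul_of_nonneg_left ?_ (sq_nonneg _)
      have : 0 ≤ 8 * D ^ 2 * G := by positivity
      linarith
    linarith
  · have h1 := exp_quad_pos (x := θ * f) (mul_nonneg hθ hf)
    rw [max_eq_left hf] at hG
    -- `f² ≤ 8 D² e^{f/(2D)}`
    have h2 : f ^ 2 ≤ 8 * D ^ 2 * Real.exp (f / (2 * D)) := by
      have h3 := Real.pow_div_factorial_le_exp (x := f / (2 * D)) (by positivity) 2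
      have h4 : (f / (2 * D)) ^ 2 / (Nat.factorial 2 : ℝ) = f ^ 2 / (8 * D ^ 2) := by
        have : ((Nat.factorial 2 : ℕ) : ℝ) = 2 := by norm_num [Nat.factorial]
        rw [this]
        field_simp
        ring
      rw [h4, div_le_iff₀ (by positivity)] at h3
      linarith
    have h3 : Real.exp (θ * f) ≤ Real.exp (f / (2 * D)) := by
      apply Real.exp_le_exp.2
      have := mul_le_mul_of_nonneg_right hθD hf
      calc θ * f ≤ 1 / (2 * D) * f := this
        _ = f / (2 * D) := by ring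
    have h4 : Real.exp (f / (2 * D)) * Real.exp (f / (2 * D)) = Real.exp (f / D) := by
      rw [← Real.exp_add]
      congr 1
      field_simp
      ring
    have h5 : f ^ 2 * Real.exp (θ * f) ≤ 8 * D ^ 2 * G := by
      calc f ^ 2 * Real.exp (θ * f) ≤ 8 * D ^ 2 * Real.exp (f / (2 * D)) * Real.exp (f / (2 * D)) :=
            mul_le_mul h2 h3 (Real.exp_pos _).le (by positivity)
        _ = 8 * D ^ 2 * Real.exp (f / D) := by rw [mul_assoc, h4]
        _ ≤ 8 * D ^ 2 * G := mul_le_mul_of_nonneg_left hG (by positivity)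
    have h6 : (θ * f) ^ 2 * Real.exp (θ * f) ≤ θ ^ 2 * (g ^ 2 + 8 * D ^ 2 * G) := by
      have h7 : (θ * f) ^ 2 * Real.exp (θ * f) = θ ^ 2 * (f ^ 2 * Real.exp (θ * f)) := by ring
      rw [h7]
      refine mul_le_mul_of_nonneg_left ?_ (sq_nonneg _)
      have := sq_nonneg g
      linarith
    linarith

variable [IsProbabilityMeasure μ] {c C : ℝ} {n₀ : ℕ}

/-- The soft maximum is at most the largest luck of the box plus the logarithm of the width. -/
theorem sm_le_Mh (η : Env) {I : Finset ℤ} (hI : I.Nonempty) (r l : ℕ) {w z : ℝ} {n : ℕ}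
    (hB : ∀ x ∈ I, (((r, x), l) : (ℕ × ℤ) × ℕ) ∈ Bx (1 / 2) w z n) :
    sm μ η I r l ≤ Real.log I.card + Mh μ 0 (1 / 2) 0 w z n η := by
  unfold sm
  rw [Real.log_le_iff_le_exp (sm_pos η hI r l), Real.exp_add, Real.exp_log (by exact_mod_cast hI.card_pos)]
  have h1 : ∀ x ∈ I, Real.exp (V μ 0 η ((r : ℤ), x) l) ≤ Real.exp (Mh μ 0 (1 / 2) 0 w z n η) := by
    intro x hx
    apply Real.exp_le_exp.2
    have h2 := le_Mh (μ := μ) (s := 0) (v := 1 / 2) (h := 0) η (hB x hx)
    have h3 : T μ 0 (1 / 2) 0 η ((r : ℤ), x) l = V μ 0 η ((r : ℤ), x) l := by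
      unfold T kap
      simp only [add_zero, sub_self, zero_mul, mul_zero]
    rw [← h3]
    exact h2
  have h2 := Finset.sum_le_sum h1
  rwa [Finset.sum_const, nsmul_eq_mul] at h2

/-- **The exponential moment of the soft maximum of a cell of starts.** -/
theorem sm_exp (h : In μ c C n₀) : ∃ κ θ : ℝ, 0 < κ ∧ 0 < θ ∧ ∃ J n₁ : ℕ, ∀ r l w : ℕ, n₁ ≤ r → 2 ^ J * r ≤ l →
    1 ≤ w → (w : ℝ) ≤ c * wd μ r → ∀ t y0 : ℤ,
    ∫ η, Real.exp (θ * (sm μ η (Finset.Ico y0 (y0 + w)) t l / EE μ l)) ∂(law μ) ≤ Real.exp (-κ) := by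
  have hc0 := h.c0
  have hc1 := h.c1
  have hC1 := h.C1
  have hC0 : 0 < C := lt_of_lt_of_le one_pos hC1
  obtain ⟨c', hc', n1, hnr⟩ := nonrand h
  obtain ⟨J, n2, hJ⟩ := scale_a h (2 * C / c' + 2)
  obtain ⟨nG, hgr⟩ := wd_growth h
  obtain ⟨A, hA0, hA⟩ := unluck_pow h 2 (by norm_num)
  obtain ⟨nI, hvA⟩ := eventually_atTop.1 (h.tv.eventually_le_const (show (0 : ℝ) < 1 / 4 by norm_num))
  obtain ⟨B, hB⟩ : ∃ B : ℝ, B = A + 8 * C ^ 2 * (Real.exp 1 * C) := ⟨_, rfl⟩
  have hB0 : 0 < B := by rw [hB]; positivity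
  obtain ⟨θ, hθ⟩ : ∃ θ : ℝ, θ = min (1 / (2 * C)) (c' / 4 / B) := ⟨_, rfl⟩
  have hθ0 : 0 < θ := by rw [hθ]; exact lt_min (by positivity) (by positivity)
  have hθC : θ ≤ 1 / (2 * C) := by rw [hθ]; exact min_le_left _ _
  have hθB : θ * B ≤ c' / 4 := by
    have h1 : θ ≤ c' / 4 / B := by rw [hθ]; exact min_le_right _ _
    rwa [le_div_iff₀ hB0] at h1
  refine ⟨θ * (c' / 4), θ, by positivity, hθ0, J, n1 + n2 + nG + nI + n₀ + 4, fun r l w hr hrl hw1 hw t y0 => ?_⟩
  have hrl' : r ≤ l := by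
    have : 1 * r ≤ 2 ^ J * r := Nat.mul_le_mul_right r Nat.one_le_two_pow
    omega
  have hEl := EE_pos (μ := μ) l
  have hEr := EE_pos (μ := μ) r
  have hmono := EE_mono (μ := μ)
  have hJ' := hJ r l (by omega) hrl
  have hwr : c * wd μ r ≤ r / 4 := by
    unfold wd
    have h1 := hvA r (by omega)
    have h2 := vA_nonneg (μ := μ) h.em zero_le_one r
    have h3 : (0 : ℝ) ≤ r := Nat.cast_nonneg r
    have h4 : vA μ 1 r * r ≤ 1 / 4 * r := mul_le_mul_of_nonneg_right h1 h3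
    have h5 : c * (vA μ 1 r * r) ≤ 1 * (vA μ 1 r * r) := mul_le_mul_of_nonneg_right hc1 (mul_nonneg h2 h3)
    linarith
  have hwl : (w : ℝ) ≤ wd μ l := by
    have h1 := hgr r l (by omega) hrl'
    have h2 : 0 ≤ wd μ r := mul_nonneg (vA_nonneg (μ := μ) h.em zero_le_one r) (Nat.cast_nonneg r)
    have h3 : 0 ≤ wd μ l := mul_nonneg (vA_nonneg (μ := μ) h.em zero_le_one l) (Nat.cast_nonneg l)
    have h4 : 2 * EE μ r ≤ EE μ l := by
      have h5 : 0 ≤ 2 * C / c' := by positivity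
      nlinarith
    have h5 : wd μ r * EE μ l ≤ EE μ l * wd μ l := by
      have := mul_le_mul_of_nonneg_right h4 h3
      linarith
    have h6 : wd μ r ≤ wd μ l := by
      rw [mul_comm] at h5
      exact le_of_mul_le_mul_left h5 hEl
    have h7 : c * wd μ r ≤ 1 * wd μ r := mul_le_mul_of_nonneg_right hc1 h2
    linarith
  -- the base cell
  obtain ⟨I, hI⟩ : ∃ I : Finset ℤ, I = Finset.Ico (md r) (md r + w) := ⟨_, rfl⟩
  have hIne : I.Nonempty := ⟨md r, by rw [hI, Finset.mem_Ico]; omega⟩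
  have hIc : I.card = w := by rw [hI, Int.card_Ico]; omega
  have hmd : 2 * md r ≤ r ∧ (r : ℤ) ≤ 2 * md r + 1 := by unfold md; omega
  have hmdr1 : (2 : ℝ) * (md r : ℝ) ≤ r := by exact_mod_cast hmd.1
  have hmdr2 : (r : ℝ) ≤ 2 * (md r : ℝ) + 1 := by exact_mod_cast hmd.2
  have hmd0 := md_nonneg r
  have hIx : ∀ x ∈ I, (md r : ℝ) ≤ x ∧ (x : ℝ) + 1 ≤ md r + w := by
    intro x hx
    rw [hI, Finset.mem_Ico] at hx
    refine ⟨by exact_mod_cast hx.1, ?_⟩
    have : x + 1 ≤ md r + w := by omega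
    exact_mod_cast this
  have hIr : ∀ x ∈ I, (0 ≤ x ∧ x ≤ r) ∧ ep μ r x ≤ C * EE μ r := by
    intro x hx
    obtain ⟨h1, h2⟩ := hIx x hx
    rw [hI, Finset.mem_Ico] at hx
    have h3 : x ≤ r := by
      have : (x : ℝ) ≤ r := by
        have : (0 : ℝ) ≤ r := Nat.cast_nonneg r
        linarith
      exact_mod_cast this
    refine ⟨⟨by omega, h3⟩, h.inn r (by omega) r x (by omega) (by omega) h3 ?_⟩
    have e2 : c * vA μ 1 r * r = c * wd μ r := by unfold wd; ring
    rw [e2, abs_le]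
    constructor <;> linarith
  have hmean := sm_mean (μ := μ) h.em r l hIne (fun x hx => (hIr x hx).1) (B := C * EE μ r) fun x hx => (hIr x hx).2
  have h1 := (hnr (r + l) (by omega)).1
  have h2 : C * EE μ r ≤ c' / 2 * EE μ l := by
    have h4 := mul_le_mul_of_nonneg_left hJ' (show 0 ≤ c' / 2 by positivity)
    have h5 : c' / 2 * ((2 * C / c' + 2) * EE μ r) = C * EE μ r + c' * EE μ r := by field_simp
    have h6 : 0 ≤ c' * EE μ r := by positivity
    linarith
  have h3 : EE μ l ≤ EE μ (r + l) := hmono (by omega)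
  have h4 : ∫ η, sm μ η I r l ∂(law μ) ≤ -(c' / 2 * EE μ l) := by
    have h5 := mul_le_mul_of_nonneg_left h3 hc'.le
    linarith
  -- the second moment of the negative part
  obtain ⟨g, hg⟩ : ∃ g : Env → ℝ, g = fun η => max (-V μ 0 η ((r : ℤ), md r) l) 0 := ⟨_, rfl⟩
  have hmr : md r ∈ I := by rw [hI, Finset.mem_Ico]; omega
  have hVsub : Sub fun η : Env => max (-V μ 0 η 0 l) 0 := (Sub_V (μ := μ) (s := 0) 0 l).neg.max (Sub.const 0)
  have hgsub : Sub g := by rw [hg]; exact (Sub_V (μ := μ) (s := 0) _ l).neg.max (Sub.const 0)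
  have hg0 : ∀ η, 0 ≤ g η := fun η => by rw [hg]; exact le_max_right _ _
  have hgint : Integrable (fun η => g η ^ 2) (law μ) := by
    have := Sub_pow_integrable (μ := μ) h.em hgsub 2
    simpa using this
  have hg2 : ∫ η, g η ^ 2 ∂(law μ) ≤ A * EE μ l ^ 2 := by
    have h5 := Pool.Agent.W_7d29a1_f21.mp_integral (mp_sh (μ := μ) ((r : ℤ), md r))
      (F := fun η : Env => max (-V μ 0 η 0 l) 0 ^ 2) (hVsub.1.pow_const 2).aestronglyMeasurable
    have h6 : ∫ η, g η ^ 2 ∂(law μ) = ∫ η, max (-V μ 0 η 0 l) 0 ^ 2 ∂(law μ) := by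
      rw [← h5]
      refine integral_congr_ae (Filter.Eventually.of_forall fun η => ?_)
      show g η ^ 2 = max (-V μ 0 (sh ((r : ℤ), md r) η) 0 l) 0 ^ 2
      rw [V_sh, zero_add, hg]
    rw [h6]
    exact hA l (by omega)
  -- the upper side
  have hll : l ≤ l ∧ n₀ ≤ l := ⟨le_rfl, by omega⟩
  obtain ⟨M, hM⟩ : ∃ M : Env → ℝ, M = fun η => Mh μ 0 (1 / 2) 0 (wd μ l) (-1) (4 * l) η := ⟨_, rfl⟩
  have hMS : Sub M := by rw [hM]; exact Sub_Mh
  have hM0 : ∀ η, 0 ≤ M η := fun η => by rw [hM]; exact Mh_nonneg η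
  have hlw : Real.log w ≤ C * EE μ l := by
    have h5 : Real.log w ≤ Real.log l := by
      apply Real.log_le_log (by exact_mod_cast hw1)
      have h6 : (0 : ℝ) ≤ r := Nat.cast_nonneg r
      have h7 : (r : ℝ) ≤ l := by exact_mod_cast hrl'
      linarith
    exact h5.trans (h.lg l (by omega))
  have hsmM : ∀ η, sm μ η I r l ≤ Real.log w + M η := by
    intro η
    have h5 := sm_le_Mh (μ := μ) η hIne r l (w := wd μ l) (z := -1) (n := 4 * l) fun x hx => by
      obtain ⟨h1, h2⟩ := hIx x hx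
      rw [mem_Bx (by norm_num) (by norm_num)]
      refine ⟨by simp only; omega, ?_, ?_⟩
      · show (-1 : ℝ) < (x : ℝ) - 1 / 2 * (r : ℝ)
        linarith
      · show (x : ℝ) - 1 / 2 * (r : ℝ) ≤ -1 + wd μ l
        linarith
    rw [hIc] at h5
    rw [hM]
    exact h5
  have hl := h.luck l (by omega) 0 (-1) (by
    rw [abs_zero, zero_mul]
    positivity)
  have hCE : 0 < C * EE μ l := by positivity
  have hexpS : Sub fun η => M η / (C * EE μ l) := by
    have := hMS.const_mul (1 / (C * EE μ l))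
    refine (congrArg Pool.Agent.W_7d29a1_F.Sub (funext fun η => ?_)).mp this
    ring
  have hexpI : Integrable (fun η => Real.exp (M η / (C * EE μ l))) (law μ) := hexpS.exp_int h.em
  have hup : ∀ η, Real.exp (max (sm μ η I r l / EE μ l) 0 / C) ≤ Real.exp 1 * Real.exp (M η / (C * EE μ l)) := by
    intro η
    rw [← Real.exp_add]
    apply Real.exp_le_exp.2
    have hlw0 : 0 ≤ Real.log w := Real.log_nonneg (by exact_mod_cast hw1)
    have h5 : max (sm μ η I r l / EE μ l) 0 ≤ (Real.log w + M η) / EE μ l := by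
      apply max_le
      · exact div_le_div_of_nonneg_right (hsmM η) hEl.le
      · have := hM0 η
        positivity
    calc max (sm μ η I r l / EE μ l) 0 / C ≤ (Real.log w + M η) / EE μ l / C := div_le_div_of_nonneg_right h5 hC0.le
      _ = Real.log w / (C * EE μ l) + M η / (C * EE μ l) := by field_simp
      _ ≤ 1 + M η / (C * EE μ l) := by
        have : Real.log w / (C * EE μ l) ≤ 1 := by
          rw [div_le_one hCE]
          exact hlw
        linarith
  -- the pointwise bound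
  obtain ⟨f, hf⟩ : ∃ f : Env → ℝ, f = fun η => sm μ η I r l / EE μ l := ⟨_, rfl⟩
  have hfS : Sub f := by
    have := (Sub_sm (μ := μ) hIne r l).const_mul (1 / EE μ l)
    refine (congrArg Pool.Agent.W_7d29a1_F.Sub (funext fun η => ?_)).mp this
    rw [hf]
    ring
  have hpt : ∀ η, Real.exp (θ * f η) ≤ 1 + θ * f η + (θ ^ 2 * (1 / EE μ l ^ 2)) * g η ^ 2 +
      (θ ^ 2 * (8 * C ^ 2 * Real.exp 1)) * Real.exp (M η / (C * EE μ l)) := by
    intro η
    have h5 := exp_bound (f := f η) (g := g η / EE μ l) (D := C) (θ := θ) hC0 hθ0.le hθC (by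
      rw [hf]
      have h6 : -sm μ η I r l ≤ g η := by
        rw [hg]
        exact (neg_le_neg (V_le_sm η r l hmr)).trans (le_max_left _ _)
      have h7 := div_le_div_of_nonneg_right h6 hEl.le
      show -(sm μ η I r l / EE μ l) ≤ g η / EE μ l
      rw [neg_div] at h7
      exact h7) (div_nonneg (hg0 η) hEl.le) (G := Real.exp 1 * Real.exp (M η / (C * EE μ l))) (by
        rw [hf]
        exact hup η)
    refine h5.trans (le_of_eq ?_)
    field_simp
    ring
  have hfi : Integrable f (law μ) := hfS.integrable h.em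
  have hθf : Sub fun η => θ * f η := hfS.const_mul θ
  have hexpf : Integrable (fun η => Real.exp (θ * f η)) (law μ) := hθf.exp_int h.em
  have hi1 : Integrable (fun η => 1 + θ * f η) (law μ) := (integrable_const _).add (hfi.const_mul θ)
  have hi2 : Integrable (fun η => 1 + θ * f η + (θ ^ 2 * (1 / EE μ l ^ 2)) * g η ^ 2) (law μ) :=
    hi1.add (hgint.const_mul _)
  have hmain : ∫ η, Real.exp (θ * f η) ∂(law μ) ≤ Real.exp (-(θ * (c' / 4))) := by
    have h5 := integral_mono hexpf (hi2.add (hexpI.const_mul (θ ^ 2 * (8 * C ^ 2 * Real.exp 1)))) hpt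
    have h6 : ∫ η, (1 + θ * f η + (θ ^ 2 * (1 / EE μ l ^ 2)) * g η ^ 2 +
        (θ ^ 2 * (8 * C ^ 2 * Real.exp 1)) * Real.exp (M η / (C * EE μ l))) ∂(law μ) =
        1 + θ * ∫ η, f η ∂(law μ) + (θ ^ 2 * (1 / EE μ l ^ 2)) * ∫ η, g η ^ 2 ∂(law μ) +
        (θ ^ 2 * (8 * C ^ 2 * Real.exp 1)) * ∫ η, Real.exp (M η / (C * EE μ l)) ∂(law μ) := by
      rw [integral_add hi2 (hexpI.const_mul _), integral_add hi1 (hgint.const_mul _),
        integral_add (integrable_const _) (hfi.const_mul θ), integral_const_mul, integral_const_mul, integral_const_mul,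
        integral_const]
      simp
    have h5' : ∫ η, Real.exp (θ * f η) ∂(law μ) ≤ 1 + θ * ∫ η, f η ∂(law μ) +
        (θ ^ 2 * (1 / EE μ l ^ 2)) * ∫ η, g η ^ 2 ∂(law μ) +
        (θ ^ 2 * (8 * C ^ 2 * Real.exp 1)) * ∫ η, Real.exp (M η / (C * EE μ l)) ∂(law μ) := h5.trans (le_of_eq h6)
    have h7 : ∫ η, f η ∂(law μ) ≤ -(c' / 2) := by
      rw [hf]
      rw [integral_div]
      rw [div_le_iff₀ hEl]
      linarith
    have h8 : (1 / EE μ l ^ 2) * ∫ η, g η ^ 2 ∂(law μ) ≤ A := by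
      rw [one_div, inv_mul_le_iff₀ (by positivity)]
      linarith
    have h9 : ∫ η, Real.exp (M η / (C * EE μ l)) ∂(law μ) ≤ C := by rw [hM]; exact hl
    have h10 : θ * ∫ η, f η ∂(law μ) ≤ -(θ * (c' / 2)) := by
      have := mul_le_mul_of_nonneg_left h7 hθ0.le
      linarith
    have h11 : (θ ^ 2 * (1 / EE μ l ^ 2)) * ∫ η, g η ^ 2 ∂(law μ) ≤ θ ^ 2 * A := by
      rw [mul_assoc]
      exact mul_le_mul_of_nonneg_left h8 (sq_nonneg _)
    have h12 : (θ ^ 2 * (8 * C ^ 2 * Real.exp 1)) * ∫ η, Real.exp (M η / (C * EE μ l)) ∂(law μ) ≤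
        θ ^ 2 * (8 * C ^ 2 * (Real.exp 1 * C)) := by
      have := mul_le_mul_of_nonneg_left h9 (show 0 ≤ θ ^ 2 * (8 * C ^ 2 * Real.exp 1) by positivity)
      linarith
    have h13 : θ ^ 2 * A + θ ^ 2 * (8 * C ^ 2 * (Real.exp 1 * C)) = θ * (θ * B) := by rw [hB]; ring
    have h14 : θ * (θ * B) ≤ θ * (c' / 4) := mul_le_mul_of_nonneg_left hθB hθ0.le
    have h15 := Real.add_one_le_exp (-(θ * (c' / 4)))
    linarith
  -- translation
  refine le_trans (le_of_eq ?_) hmain
  have hms : Measurable fun η : Env => Real.exp (θ * f η) := Real.measurable_exp.comp hθf.1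
  have h5 := Pool.Agent.W_7d29a1_f21.mp_integral (mp_sh (μ := μ) (t - r, y0 - md r))
    (F := fun η : Env => Real.exp (θ * f η)) hms.aestronglyMeasurable
  rw [← h5]
  refine integral_congr_ae (Filter.Eventually.of_forall fun η => ?_)
  show Real.exp (θ * (sm μ η (Finset.Ico y0 (y0 + w)) t l / EE μ l)) = Real.exp (θ * f (sh (t - r, y0 - md r) η))
  rw [hf]
  have h7 : sm μ (sh (t - r, y0 - md r) η) I r l = sm μ η (Finset.Ico y0 (y0 + w)) t l := by
    unfold sm
    congr 1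
    refine Finset.sum_nbij' (fun x => x + (y0 - md r)) (fun x => x - (y0 - md r)) ?_ ?_ ?_ ?_ ?_
    · intro x hx
      rw [hI, Finset.mem_Ico] at hx
      rw [Finset.mem_Ico]
      omega
    · intro x hx
      rw [Finset.mem_Ico] at hx
      rw [hI, Finset.mem_Ico]
      omega
    · intro x _
      ring
    · intro x _
      ring
    · intro x _
      rw [V_sh]
      congr 2
      ext
      · show (r : ℤ) + (t - r) = t
        ring
      · rfl
  show _ = Real.exp (θ * (sm μ (sh (t - r, y0 - md r) η) I r l / EE μ l))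
  rw [h7]

/-- `sm` of a slab depends on the rows of the slab. -/
theorem sm_dep (I : Finset ℤ) (t : ℤ) (l : ℕ) : DependsOn (fun η : Env => sm μ η I t l) (rows t (t + l)) := by
  intro η η' hη
  show sm μ η I t l = sm μ η' I t l
  unfold sm
  congr 1
  refine Finset.sum_congr rfl fun x _ => ?_
  congr 1
  exact Pool.Agent.W_7d29a1_F.V_dep_rows (μ := μ) (s := 0) (t, x) l hη

/-- **The fresh tube of a fixed shape**: the total soft luck of the cells `[y j, y j + w)` at the times `t + j l`. -/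
theorem fresh_shape (h : In μ c C n₀) : ∃ κ a : ℝ, 0 < κ ∧ 0 < a ∧ ∃ J n₁ : ℕ, ∀ r l w : ℕ, n₁ ≤ r → 2 ^ J * r ≤ l →
    1 ≤ w → (w : ℝ) ≤ c * wd μ r → ∀ (M : ℕ) (t : ℤ) (y : ℕ → ℤ),
    (law μ).real {η | -(κ * (M * EE μ l)) ≤ ∑ j ∈ Finset.range M, sm μ η (Finset.Ico (y j) (y j + w)) (t + j * l) l} ≤
      Real.exp (-(a * M)) := by
  obtain ⟨κ, θ, hκ, hθ, J, n₁, hexp⟩ := sm_exp h
  refine ⟨κ / (2 * θ), κ / 2, by positivity, by positivity, J, n₁, fun r l w hr hrl hw1 hw M t y => ?_⟩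
  have hEl := EE_pos (μ := μ) l
  obtain ⟨F, hF⟩ : ∃ F : ℕ → Env → ℝ, F = fun j η =>
    Real.exp (θ * (sm μ η (Finset.Ico (y j) (y j + w)) (t + j * l) l / EE μ l)) := ⟨_, rfl⟩
  have hI : ∀ j, (Finset.Ico (y j) (y j + w)).Nonempty := fun j => ⟨y j, by rw [Finset.mem_Ico]; omega⟩
  have hSj : ∀ j, Sub fun η => θ * (sm μ η (Finset.Ico (y j) (y j + w)) (t + j * l) l / EE μ l) := by
    intro j
    have := (Sub_sm (μ := μ) (hI j) (t + j * l) l).const_mul (θ / EE μ l)
    refine (congrArg Pool.Agent.W_7d29a1_F.Sub (funext fun η => ?_)).mp this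
    ring
  have hFm : ∀ j, Measurable (F j) := fun j => by
    rw [hF]
    exact Real.measurable_exp.comp (hSj j).1
  have hprod : ∫ η, ∏ j ∈ Finset.range M, F j η ∂(law μ) = ∏ j ∈ Finset.range M, ∫ η, F j η ∂(law μ) := by
    refine indep_prod (μ := μ) (Finset.range M) F (fun j => rows (t + j * l) (t + j * l + l)) (fun j _ => hFm j)
      (fun j _ => ?_) (fun i _ j _ hij => ?_)
    · intro η η' hη
      rw [hF]
      show Real.exp (θ * (sm μ η (Finset.Ico (y j) (y j + w)) (t + j * l) l / EE μ l)) =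
        Real.exp (θ * (sm μ η' (Finset.Ico (y j) (y j + w)) (t + j * l) l / EE μ l))
      rw [show sm μ η (Finset.Ico (y j) (y j + w)) (t + j * l) l = sm μ η' (Finset.Ico (y j) (y j + w)) (t + j * l) l from
        sm_dep (μ := μ) _ _ _ hη]
    · rw [Set.disjoint_left]
      intro p hp hp'
      unfold rows at hp hp'
      simp only [Set.mem_ofPred_eq] at hp hp'
      rcases lt_or_gt_of_ne hij with h1 | h1
      · have h2 : (i : ℤ) * l + l ≤ j * l := by
          have : ((i : ℤ) + 1) * l ≤ j * l := mul_le_mul_of_nonneg_right (by omega) (by positivity)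
          linarith
        linarith [hp.2, hp'.1]
      · have h2 : (j : ℤ) * l + l ≤ i * l := by
          have : ((j : ℤ) + 1) * l ≤ i * l := mul_le_mul_of_nonneg_right (by omega) (by positivity)
          linarith
        linarith [hp'.2, hp.1]
  have hle : ∫ η, ∏ j ∈ Finset.range M, F j η ∂(law μ) ≤ Real.exp (-(κ * M)) := by
    rw [hprod]
    have h1 : ∀ j ∈ Finset.range M, ∫ η, F j η ∂(law μ) ≤ Real.exp (-κ) := fun j _ => by
      rw [hF]
      exact hexp r l w hr hrl hw1 hw (t + j * l) (y j)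
    have h2 : ∏ j ∈ Finset.range M, ∫ η, F j η ∂(law μ) ≤ ∏ _j ∈ Finset.range M, Real.exp (-κ) :=
      Finset.prod_le_prod (fun j _ => integral_nonneg fun η => by rw [hF]; exact (Real.exp_pos _).le) h1
    refine h2.trans (le_of_eq ?_)
    rw [Finset.prod_const, Finset.card_range, ← Real.exp_nat_mul]
    congr 1
    ring
  -- Markov
  obtain ⟨G, hG⟩ : ∃ G : Env → ℝ, G = fun η => ∑ j ∈ Finset.range M,
    θ * (sm μ η (Finset.Ico (y j) (y j + w)) (t + j * l) l / EE μ l) := ⟨_, rfl⟩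
  have hGS : Sub G := by rw [hG]; exact Sub.sum (Finset.range M) fun j _ => hSj j
  have hFG : ∀ η, ∏ j ∈ Finset.range M, F j η = Real.exp (G η) := fun η => by
    rw [hG, hF, ← Real.exp_sum]
  have hint : Integrable (fun η => Real.exp (G η)) (law μ) := hGS.exp_int h.em
  have h1 := mul_meas_ge_le_integral_of_nonneg (μ := law μ) (Eventually.of_forall fun η => (Real.exp_pos (G η)).le) hint
    (Real.exp (-(κ / 2 * M)))
  simp only [hFG] at hle
  have h2 : {η | -(κ / (2 * θ) * (M * EE μ l)) ≤ ∑ j ∈ Finset.range M, sm μ η (Finset.Ico (y j) (y j + w)) (t + j * l) l} ⊆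
      {η | Real.exp (-(κ / 2 * M)) ≤ Real.exp (G η)} := by
    intro η hη
    rw [Set.mem_ofPred_eq] at hη
    rw [Set.mem_ofPred_eq, Real.exp_le_exp, hG]
    show -(κ / 2 * M) ≤ ∑ j ∈ Finset.range M, θ * (sm μ η (Finset.Ico (y j) (y j + w)) (t + j * l) l / EE μ l)
    rw [← Finset.mul_sum, ← Finset.sum_div]
    have h3 := mul_le_mul_of_nonneg_left hη (show 0 ≤ θ / EE μ l by positivity)
    have h4 : θ / EE μ l * -(κ / (2 * θ) * (M * EE μ l)) = -(κ / 2 * M) := by
      field_simp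
    rw [h4] at h3
    calc -(κ / 2 * M) ≤ θ / EE μ l * ∑ j ∈ Finset.range M, sm μ η (Finset.Ico (y j) (y j + w)) (t + j * l) l := h3
      _ = _ := by ring
  refine (measureReal_mono h2 (measure_ne_top _ _)).trans ?_
  have h3 := h1.trans hle
  have h4 : Real.exp (-(κ / 2 * M)) * Real.exp (-(κ / 2 * M)) = Real.exp (-(κ * M)) := by
    rw [← Real.exp_add]
    congr 1
    ring
  rw [← h4] at h3
  exact le_of_mul_le_mul_left h3 (Real.exp_pos _)

end

end Pool.Agent.W_7d29a1_Z82
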